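import Mathlib

/-!
# C-sets (definition)
-/

set_option autoImplicit false

namespace Pool.Agent.Work.MP_994356_lc

/-- The C-sets of a measurable space `X`: the smallest family of subsets of `X` which contains the
measurable sets and is closed under complements and under the Souslin operation. In the Souslin
operation `P s` is given for every finite sequence `s` of naturals, and the result is the set of the
points which for some `z : ℕ → ℕ` belong to `P (z 0, ..., z (n - 1))` for all `n`. -/
inductive CSet {X : Type*} [MeasurableSpace X] : Set X → Prop
  | meas (s : Set X) : MeasurableSet s → CSet s
  | compl (s : Set X) : CSet s → CSet sᶜ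
  | souslin (P : List ℕ → Set X) : (∀ s, CSet (P s)) →
      CSet {p | ∃ z : ℕ → ℕ, ∀ n, p ∈ P (List.ofFn fun i : Fin n => z i)}

end Pool.Agent.Work.MP_994356_lc
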