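import Mathlib
import Pool.Agent.Work.MP_994356_lc.CS

/-
MODULE Analytic (size M). Self-contained (uses only CS.lean).
An analytic set s (MeasureTheory.AnalyticSet: s is empty or the range of a continuous f : (Nat -> Nat) -> X)
of a metrizable (regular is enough) space with the Borel sigma-algebra is a C-set: empty set: meas. s = range f:
P t = closure (f '' {z | List.ofFn (fun i : Fin t.length => z i) = t}), closed, so measurable, so a C-set. Then
s = {p | exists z, forall n, p in P (List.ofFn fun i : Fin n => z i)}: if p = f z then p is in all these sets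
(subset_closure). Conversely let p be in P (z restricted to n) for all n, and suppose p <> f z. Take disjoint
neighbourhoods: a closed neighbourhood V of f z with p not in V (regular + T1: closed neighbourhoods form a
basis, closed_nhds_basis). By continuity f '' (cylinder z n) is contained in V for some n (cylinders are a
basis of neighbourhoods of z: PiNat.cylinder, PiNat.isOpen_cylinder, or hasBasis for the pi topology with
discrete factors), so p in closure (f '' cylinder) is contained in V, contradiction. Mathlib has similar
arguments in Mathlib/MeasureTheory/Constructions/Polish/Basic.lean (separation of analytic sets).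
-/

set_option autoImplicit false

open MeasureTheory Set
open scoped Topology

namespace Pool.Agent.Work.MP_994356_lc

theorem cset_of_analytic {X : Type*} [TopologicalSpace X] [T3Space X] [MeasurableSpace X]
    [BorelSpace X] {s : Set X} (hs : AnalyticSet s) : CSet s := by
  rw [AnalyticSet] at hs
  rcases hs with rfl | ⟨f, hf, rfl⟩
  · exact CSet.meas _ MeasurableSet.empty
  have h := CSet.souslin
    (fun t : List ℕ => closure (f '' {w | ∀ (i : ℕ) (hi : i < t.length), w i = t[i]}))
    (fun t => CSet.meas _ isClosed_closure.measurableSet)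
  have hset : ∀ (z : ℕ → ℕ) (n : ℕ),
      {w : ℕ → ℕ | ∀ (i : ℕ) (hi : i < (List.ofFn fun i : Fin n => z i).length),
        w i = (List.ofFn fun i : Fin n => z i)[i]} = {w | ∀ i < n, w i = z i} := by
    intro z n
    ext w
    simp only [List.length_ofFn, List.getElem_ofFn, mem_setOf_eq]
  have h2 : {p : X | ∃ z : ℕ → ℕ, ∀ n, p ∈ (fun t : List ℕ =>
      closure (f '' {w | ∀ (i : ℕ) (hi : i < t.length), w i = t[i]}))
        (List.ofFn fun i : Fin n => z i)} = range f := by
    ext p
    simp only [mem_setOf_eq, hset, mem_range]
    constructor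
    · rintro ⟨z, hz⟩
      refine ⟨z, ?_⟩
      by_contra hne
      have hU : ({p}ᶜ : Set X) ∈ 𝓝 (f z) := isOpen_compl_singleton.mem_nhds hne
      obtain ⟨V, ⟨hV, hVc⟩, hVp⟩ := (closed_nhds_basis (f z)).mem_iff.1 hU
      have hfV : f ⁻¹' V ∈ 𝓝 z := hf.continuousAt hV
      obtain ⟨C, ⟨x, m, rfl⟩, hzC, hCV⟩ :=
        (PiNat.isTopologicalBasis_cylinders (fun _ : ℕ => ℕ)).mem_nhds_iff.1 hfV
      have h3 : f '' {w | ∀ i < m, w i = z i} ⊆ V := by
        rintro _ ⟨w, hw, rfl⟩
        apply hCV
        rw [PiNat.mem_cylinder_iff] at hzC ⊢
        intro i hi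
        rw [hw i hi, hzC i hi]
      exact hVp (closure_minimal h3 hVc (hz m)) rfl
    · rintro ⟨z, rfl⟩
      exact ⟨z, fun n => subset_closure ⟨z, fun i _ => rfl, rfl⟩⟩
  rw [← h2]
  exact h

end Pool.Agent.Work.MP_994356_lc
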