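import Mathlib

/-!
# Measurable families of Laver trees

A node is a REVERSED finite sequence (`pre x n = [x (n-1), ..., x 0]`). A family `F` gives for every
point `y` and every node `u` an infinite set `F.S y u` of allowed next values, measurably in `y`;
`br F y t` is the set of branches of the tree with stem `t`.
-/

set_option autoImplicit false

open MeasureTheory Set

namespace Pool.Agent.Work.MP_994356_lc

/-- The reversed initial segment `[x (n-1), ..., x 0]`. -/
def pre (x : ℕ → ℕ) : ℕ → List ℕ
  | 0 => []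
  | n + 1 => x n :: pre x n

theorem pre_length (x : ℕ → ℕ) (n : ℕ) : (pre x n).length = n := by
  induction n with
  | zero => rfl
  | succ n ih => simp [pre, ih]

theorem pre_congr {x x' : ℕ → ℕ} {n : ℕ} (h : ∀ i < n, x i = x' i) : pre x n = pre x' n := by
  induction n with
  | zero => rfl
  | succ n ih => rw [pre, pre, h n (Nat.lt_succ_self n), ih fun i hi => h i (by omega)]

theorem pre_drop (x : ℕ → ℕ) {m n : ℕ} (h : m ≤ n) : (pre x n).drop (n - m) = pre x m := by
  induction n with
  | zero =>
    have : m = 0 := by omega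
    subst this
    rfl
  | succ n ih =>
    rcases Nat.lt_or_ge n m with h1 | h1
    · have : m = n + 1 := by omega
      subst this
      simp
    · have h2 : n + 1 - m = (n - m) + 1 := by omega
      rw [h2, pre, List.drop_succ_cons]
      exact ih h1

theorem eq_of_pre_eq {x x' : ℕ → ℕ} {n : ℕ} (h : pre x n = pre x' n) {i : ℕ} (hi : i < n) :
    x i = x' i := by
  induction n with
  | zero => omega
  | succ n ih =>
    rw [pre, pre, List.cons.injEq] at h
    rcases Nat.lt_or_ge i n with h1 | h1
    · exact ih h.2 h1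
    · have : i = n := by omega
      rw [this]
      exact h.1

/-- the value number `n` of a node -/
def digit (t : List ℕ) (n : ℕ) : ℕ := t.reverse.getD n 0

theorem pre_digit (t : List ℕ) : pre (digit t) t.length = t := by
  induction t with
  | nil => rfl
  | cons a t ih =>
    have h1 : ∀ i < t.length, digit (a :: t) i = digit t i := by
      intro i hi
      unfold digit
      rw [List.reverse_cons, List.getD_append _ _ _ _ (by simpa using hi)]
    have h2 : digit (a :: t) t.length = a := by
      unfold digit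
      rw [List.reverse_cons, List.getD_append_right _ _ _ _ (by simp)]
      simp
    rw [List.length_cons, pre, h2, pre_congr h1, ih]

variable {Y : Type*} [MeasurableSpace Y]

/-- Measurable families of Laver trees. -/
structure Fam (Y : Type*) [MeasurableSpace Y] where
  /-- allowed next values -/
  S : Y → List ℕ → Set ℕ
  inf : ∀ y t, (S y t).Infinite
  meas : ∀ t k, MeasurableSet {y | k ∈ S y t}

/-- `F` is a family of subtrees of `G`. -/
def Fam.Sub (F G : Fam Y) : Prop := ∀ y t, F.S y t ⊆ G.S y t

theorem Fam.Sub.refl (F : Fam Y) : F.Sub F := fun _ _ => Subset.rfl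

theorem Fam.Sub.trans {F G H : Fam Y} (h1 : F.Sub G) (h2 : G.Sub H) : F.Sub H :=
  fun y t => (h1 y t).trans (h2 y t)

/-- The branches with stem `t`. -/
def br (F : Fam Y) (y : Y) (t : List ℕ) : Set (ℕ → ℕ) :=
  {x | pre x t.length = t ∧ ∀ n, t.length ≤ n → x n ∈ F.S y (pre x n)}

theorem br_mono {F G : Fam Y} (h : F.Sub G) (y : Y) (t : List ℕ) : br F y t ⊆ br G y t :=
  fun _ hx => ⟨hx.1, fun n hn => h _ _ (hx.2 n hn)⟩

theorem br_node {F : Fam Y} {y : Y} {t : List ℕ} {x : ℕ → ℕ} (hx : x ∈ br F y t) {m : ℕ}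
    (hm : t.length ≤ m) : x ∈ br F y (pre x m) := by
  refine ⟨by rw [pre_length], fun n hn => hx.2 n ?_⟩
  rw [pre_length] at hn
  omega

/-- There are branches above every given function. -/
theorem exists_br (F : Fam Y) (y : Y) (t : List ℕ) (x₀ : ℕ → ℕ) :
    ∃ x ∈ br F y t, ∀ n, t.length ≤ n → x₀ n ≤ x n := by
  have hc : ∀ u : List ℕ, ∃ k, k ∈ F.S y u ∧ x₀ u.length ≤ k := by
    intro u
    obtain ⟨k, hk, hk2⟩ := (F.inf y u).exists_gt (x₀ u.length)
    exact ⟨k, hk, hk2.le⟩
  choose c hc1 hc2 using hc
  let N : ℕ → List ℕ := fun i => Nat.rec t (fun _ u => c u :: u) i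
  have hN0 : N 0 = t := rfl
  have hNs : ∀ i, N (i + 1) = c (N i) :: N i := fun i => rfl
  let x : ℕ → ℕ := fun n => if n < t.length then digit t n else c (N (n - t.length))
  have hpre : ∀ i, pre x (t.length + i) = N i := by
    intro i
    induction i with
    | zero =>
      rw [hN0, Nat.add_zero]
      have : pre x t.length = pre (digit t) t.length := pre_congr fun i hi => by simp [x, hi]
      rw [this, pre_digit]
    | succ i ih =>
      rw [← Nat.add_assoc, pre, ih, hNs]
      have : x (t.length + i) = c (N i) := by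
        simp [x]
      rw [this]
  have hlen : ∀ i, (N i).length = t.length + i := by
    intro i
    rw [← hpre i, pre_length]
  have hx : ∀ n, t.length ≤ n → x n = c (pre x n) := by
    intro n hn
    obtain ⟨i, rfl⟩ := Nat.exists_eq_add_of_le hn
    rw [hpre]
    simp [x]
  refine ⟨x, ⟨?_, fun n hn => ?_⟩, fun n hn => ?_⟩
  · have := hpre 0
    rwa [Nat.add_zero, hN0] at this
  · rw [hx n hn]
    exact hc1 _
  · rw [hx n hn]
    have := hc2 (pre x n)
    rwa [pre_length] at this

theorem br_nonempty (F : Fam Y) (y : Y) (t : List ℕ) : (br F y t).Nonempty := by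
  obtain ⟨x, hx, _⟩ := exists_br F y t 0
  exact ⟨x, hx⟩

/-- The full family. -/
def Fam.full (Y : Type*) [MeasurableSpace Y] : Fam Y where
  S _ _ := univ
  inf _ _ := infinite_univ
  meas _ _ := by simp

open Classical in
/-- Definition by cases. -/
noncomputable def Fam.ite (E : Set Y) (hE : MeasurableSet E) (F G : Fam Y) : Fam Y where
  S y t := if y ∈ E then F.S y t else G.S y t
  inf y t := by
    split_ifs
    · exact F.inf y t
    · exact G.inf y t
  meas t k := by
    have : {y | k ∈ (if y ∈ E then F.S y t else G.S y t)} =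
        (E ∩ {y | k ∈ F.S y t}) ∪ (Eᶜ ∩ {y | k ∈ G.S y t}) := by
      ext y
      by_cases hy : y ∈ E <;> simp [hy]
    rw [this]
    exact (hE.inter (F.meas t k)).union (hE.compl.inter (G.meas t k))

theorem Fam.ite_sub {E : Set Y} {hE : MeasurableSet E} {F G R : Fam Y} (hF : F.Sub R)
    (hG : G.Sub R) : (Fam.ite E hE F G).Sub R := by
  intro y t
  simp only [Fam.ite]
  split_ifs
  · exact hF y t
  · exact hG y t

theorem br_ite_pos {E : Set Y} {hE : MeasurableSet E} {F G : Fam Y} {y : Y} (hy : y ∈ E)
    (t : List ℕ) : br (Fam.ite E hE F G) y t = br F y t := by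
  ext x
  simp [br, Fam.ite, hy]

theorem br_ite_neg {E : Set Y} {hE : MeasurableSet E} {F G : Fam Y} {y : Y} (hy : y ∉ E)
    (t : List ℕ) : br (Fam.ite E hE F G) y t = br G y t := by
  ext x
  simp [br, Fam.ite, hy]

/-- Countable definition by cases. -/
def Fam.sel (F : ℕ → Fam Y) (i : Y → ℕ) (hi : ∀ n, MeasurableSet {y | i y = n}) : Fam Y where
  S y t := (F (i y)).S y t
  inf y t := (F (i y)).inf y t
  meas t k := by
    have : {y | k ∈ (F (i y)).S y t} = ⋃ n, ({y | i y = n} ∩ {y | k ∈ (F n).S y t}) := by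
      ext y
      simp
    rw [this]
    exact MeasurableSet.iUnion fun n => (hi n).inter ((F n).meas t k)

theorem br_sel (F : ℕ → Fam Y) (i : Y → ℕ) (hi : ∀ n, MeasurableSet {y | i y = n}) (y : Y)
    (t : List ℕ) : br (Fam.sel F i hi) y t = br (F (i y)) y t := rfl

/-- Fusion: the families attached to the nodes. -/
noncomputable def fuseR (h : Fam Y → List ℕ → Fam Y) (F : Fam Y) : List ℕ → Fam Y
  | [] => h F []
  | k :: t => h (fuseR h F t) (k :: t)

/-- The family before the treatment of the node. -/
noncomputable def fuseQ (h : Fam Y → List ℕ → Fam Y) (F : Fam Y) : List ℕ → Fam Y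
  | [] => F
  | _ :: t => fuseR h F t

theorem fuseR_eq (h : Fam Y → List ℕ → Fam Y) (F : Fam Y) (t : List ℕ) :
    fuseR h F t = h (fuseQ h F t) t := by
  cases t <;> rfl

/-- Fusion. -/
noncomputable def fuse (h : Fam Y → List ℕ → Fam Y) (F : Fam Y) : Fam Y where
  S y u := (fuseR h F u).S y u
  inf y u := (fuseR h F u).inf y u
  meas u k := (fuseR h F u).meas u k

theorem fuseR_sub {h : Fam Y → List ℕ → Fam Y} (hh : ∀ G t, (h G t).Sub G) (F : Fam Y)
    (t : List ℕ) : (fuseR h F t).Sub F := by
  induction t with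
  | nil => exact hh _ _
  | cons k t ih => exact (hh _ _).trans ih

theorem fuseQ_sub {h : Fam Y → List ℕ → Fam Y} (hh : ∀ G t, (h G t).Sub G) (F : Fam Y)
    (t : List ℕ) : (fuseQ h F t).Sub F := by
  cases t with
  | nil => exact Fam.Sub.refl _
  | cons k t => exact fuseR_sub hh F t

theorem fuse_sub {h : Fam Y → List ℕ → Fam Y} (hh : ∀ G t, (h G t).Sub G) (F : Fam Y) :
    (fuse h F).Sub F := fun y u => fuseR_sub hh F u y u

theorem fuseR_append_sub {h : Fam Y → List ℕ → Fam Y} (hh : ∀ G t, (h G t).Sub G) (F : Fam Y)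
    (v t : List ℕ) : (fuseR h F (v ++ t)).Sub (fuseR h F t) := by
  induction v with
  | nil => exact Fam.Sub.refl _
  | cons k v ih => exact (hh _ _).trans ih

theorem fuseR_pre_sub {h : Fam Y → List ℕ → Fam Y} (hh : ∀ G t, (h G t).Sub G) (F : Fam Y)
    (x : ℕ → ℕ) {m n : ℕ} (hmn : m ≤ n) : (fuseR h F (pre x n)).Sub (fuseR h F (pre x m)) := by
  have h1 : pre x n = (pre x n).take (n - m) ++ pre x m := by
    rw [← pre_drop x hmn, List.take_append_drop]
  rw [h1]
  exact fuseR_append_sub hh F _ _

/-- The fusion is finer than the family of the node on the cone of the node. -/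
theorem br_fuse {h : Fam Y → List ℕ → Fam Y} (hh : ∀ G t, (h G t).Sub G) (F : Fam Y) (y : Y)
    (t : List ℕ) : br (fuse h F) y t ⊆ br (fuseR h F t) y t := by
  intro x hx
  refine ⟨hx.1, fun n hn => ?_⟩
  have h1 := fuseR_pre_sub hh F x hn y (pre x n) (hx.2 n hn)
  rwa [hx.1] at h1

end Pool.Agent.Work.MP_994356_lc
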