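import Mathlib
import Pool.Agent.Work.MP_994356_lc.Basic

/-!
# Sets decided by measurable families of Laver trees: definitions and first facts

`InOn μ A F t E`: for almost all `y` in `E` every branch `x` of the tree `F_y` with stem `t` satisfies
`(x, y) ∈ A`. `Dec μ A`: at every node `t` every family `R` has a subfamily `F` and a measurable set
`D` such that `A` holds on all branches over `D` and fails on all branches over the complement.
-/

set_option autoImplicit false

open MeasureTheory Set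

namespace Pool.Agent.Work.MP_994356_lc

variable {Y : Type*} [MeasurableSpace Y]

/-- Over almost every point of `E` all branches with stem `t` are in `A`. -/
def InOn (μ : Measure Y) (A : Set ((ℕ → ℕ) × Y)) (F : Fam Y) (t : List ℕ) (E : Set Y) : Prop :=
  ∀ᵐ y ∂μ, y ∈ E → ∀ x ∈ br F y t, (x, y) ∈ A

/-- `F` is a family of subtrees of `G` on the cone of the node `t`. -/
def SubOn (F G : Fam Y) (t : List ℕ) : Prop := ∀ y u, t <:+ u → F.S y u ⊆ G.S y u

/-- The set `A` is decided at the node `t`. -/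
def DecAt (μ : Measure Y) (A : Set ((ℕ → ℕ) × Y)) (t : List ℕ) : Prop :=
  ∀ R : Fam Y, ∃ F : Fam Y, F.Sub R ∧
    ∃ D : Set Y, MeasurableSet D ∧ InOn μ A F t D ∧ InOn μ Aᶜ F t Dᶜ

/-- The set `A` is decided at all nodes. -/
def Dec (μ : Measure Y) (A : Set ((ℕ → ℕ) × Y)) : Prop := ∀ t, DecAt μ A t

theorem Fam.Sub.subOn {F G : Fam Y} (h : F.Sub G) (t : List ℕ) : SubOn F G t :=
  fun y u _ => h y u

theorem InOn.mono {μ : Measure Y} {A B : Set ((ℕ → ℕ) × Y)} {F : Fam Y} {t : List ℕ}
    {E : Set Y} (h : InOn μ A F t E) (hAB : A ⊆ B) : InOn μ B F t E := by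
  filter_upwards [h] with y hy hE x hx using hAB (hy hE x hx)

theorem InOn.sub {μ : Measure Y} {A : Set ((ℕ → ℕ) × Y)} {F G : Fam Y} {t : List ℕ}
    {E : Set Y} (h : InOn μ A F t E) (hG : G.Sub F) : InOn μ A G t E := by
  filter_upwards [h] with y hy hE x hx using hy hE x (br_mono hG y t hx)

theorem Dec.compl {μ : Measure Y} {A : Set ((ℕ → ℕ) × Y)} (h : Dec μ A) : Dec μ Aᶜ := by
  intro t R
  obtain ⟨F, hF, D, hD, h1, h2⟩ := h t R
  exact ⟨F, hF, Dᶜ, hD.compl, h2, by rw [compl_compl, compl_compl]; exact h1⟩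

/-- The leftmost branch: the node number `n`. -/
noncomputable def lmN (F : Fam Y) (y : Y) : ℕ → List ℕ
  | 0 => []
  | n + 1 => sInf (F.S y (lmN F y n)) :: lmN F y n

/-- The leftmost branch. -/
noncomputable def lm (F : Fam Y) (y : Y) (n : ℕ) : ℕ := sInf (F.S y (lmN F y n))

/-- The result of the Souslin operation. -/
def Sous {X : Type*} (P : List ℕ → Set X) : Set X := {p | ∃ z : ℕ → ℕ, ∀ n, p ∈ P (pre z n)}

/-- The result of the Souslin operation above a node `s`. -/
def SousAt {X : Type*} (P : List ℕ → Set X) (s : List ℕ) : Set X :=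
  {p | ∃ z : ℕ → ℕ, pre z s.length = s ∧ ∀ n, p ∈ P (pre z n)}

theorem sousAt_nil {X : Type*} (P : List ℕ → Set X) : SousAt P [] = Sous P := by
  ext p
  simp [SousAt, Sous, pre]

theorem sousAt_subset {X : Type*} (P : List ℕ → Set X) (s : List ℕ) : SousAt P s ⊆ P s := by
  rintro p ⟨z, hz, hp⟩
  have := hp s.length
  rwa [hz] at this

theorem sousAt_eq {X : Type*} (P : List ℕ → Set X) (s : List ℕ) :
    SousAt P s = ⋃ k, SousAt P (k :: s) := by
  ext p
  simp only [SousAt, mem_setOf_eq, mem_iUnion, List.length_cons, pre]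
  constructor
  · rintro ⟨z, hz, hp⟩
    exact ⟨z s.length, z, by rw [hz], hp⟩
  · rintro ⟨k, z, hz, hp⟩
    exact ⟨z, (List.cons.inj hz).2, hp⟩

/-- The enumeration of the nodes in which every node occurs infinitely often. -/
def enumN (m : ℕ) : List ℕ := (Encodable.decode (α := List ℕ) (Nat.unpair m).1).getD []

theorem exists_enumN (s : List ℕ) (N : ℕ) : ∃ m, N ≤ m ∧ enumN m = s := by
  refine ⟨Nat.pair (Encodable.encode s) N, Nat.right_le_pair _ _, ?_⟩
  simp [enumN]

/-- The node `u` is above `t` in the tree of the family. -/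
def TM (R : Fam Y) (t u : List ℕ) : Set Y :=
  {y | t <:+ u ∧ ∀ i, t.length ≤ i → i < u.length → digit u i ∈ R.S y (pre (digit u) i)}

end Pool.Agent.Work.MP_994356_lc
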