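import Mathlib
import Pool.Agent.Work.MP_994356_lc.Defs

/-
MODULE Left (size M). Self-contained (uses only Basic, Defs).
lm_mem: pre (lm F y) n = lmN F y n by induction (rfl steps), and sInf of a nonempty set of naturals is in it
(Nat.sInf_mem); stem [] has length 0.
lm_meas: {y | lmN F y n = u} is measurable by induction on n: for n + 1 the node k :: u is reached iff
lmN F y n = u and sInf (F.S y u) = k, and {y | sInf (F.S y u) = k} = {k in F.S y u} minus the union over
j < k of {j in F.S y u}. {y | lm F y n = k} = union over u (countable) of {lmN F y n = u} inter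
{sInf (F.S y u) = k}.
lm_bound: for every n the sets {y | b < lm F y n}, b = 0, 1, .., decrease to the empty set, so there is g n
with μ {y | g n < lm F y n} <= eps / 2^(n+1) (tendsto_measure_iInter_atTop, finite measure;
ENNReal.exists_pos_sum_of_countable gives positive eps' n with sum < eps). Then
μ {y | exists n, g n < lm F y n} <= sum <= eps.
-/

set_option autoImplicit false

open MeasureTheory Set

namespace Pool.Agent.Work.MP_994356_lc

private theorem sInf_meas' {Y : Type*} [MeasurableSpace Y] (F : Fam Y) (u : List ℕ) (k : ℕ) :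
    MeasurableSet {y | sInf (F.S y u) = k} := by
  have h1 : {y | sInf (F.S y u) = k} = {y | k ∈ F.S y u} \ ⋃ j : Fin k, {y | (j : ℕ) ∈ F.S y u} := by
    ext y
    simp only [mem_setOf_eq, mem_diff, mem_iUnion, not_exists]
    constructor
    · intro h
      refine ⟨?_, fun j hj => ?_⟩
      · rw [← h]
        exact Nat.sInf_mem (F.inf y u).nonempty
      · have h2 := Nat.sInf_le hj
        have h3 := j.2
        omega
    · rintro ⟨h2, h3⟩
      apply le_antisymm (Nat.sInf_le h2)
      by_contra h4
      push Not at h4
      exact h3 ⟨sInf (F.S y u), h4⟩ (Nat.sInf_mem (F.inf y u).nonempty)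
  rw [h1]
  exact (F.meas u k).diff (MeasurableSet.iUnion fun j => F.meas u j)

private theorem lmN_meas {Y : Type*} [MeasurableSpace Y] (F : Fam Y) (n : ℕ) :
    ∀ u : List ℕ, MeasurableSet {y | lmN F y n = u} := by
  induction n with
  | zero =>
    intro u
    exact MeasurableSet.const ([] = u)
  | succ n ih =>
    intro u
    cases u with
    | nil =>
      have h1 : {y | lmN F y (n + 1) = []} = ∅ := by
        ext y
        simp [lmN]
      rw [h1]
      exact MeasurableSet.empty
    | cons k v =>
      have h1 : {y | lmN F y (n + 1) = k :: v} =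
          {y | lmN F y n = v} ∩ {y | sInf (F.S y v) = k} := by
        ext y
        simp only [lmN, mem_setOf_eq, mem_inter_iff, List.cons.injEq]
        constructor
        · rintro ⟨h2, h3⟩
          exact ⟨h3, by rw [← h3]; exact h2⟩
        · rintro ⟨h2, h3⟩
          exact ⟨by rw [h2]; exact h3, h2⟩
      rw [h1]
      exact (ih v).inter (sInf_meas' F v k)

theorem lm_mem {Y : Type*} [MeasurableSpace Y] (F : Fam Y) (y : Y) : lm F y ∈ br F y [] := by
  have h : ∀ n, pre (lm F y) n = lmN F y n := by
    intro n
    induction n with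
    | zero => rfl
    | succ n ih =>
      show lm F y n :: pre (lm F y) n = sInf (F.S y (lmN F y n)) :: lmN F y n
      rw [ih]
      rfl
  refine ⟨rfl, fun n _ => ?_⟩
  rw [h]
  exact Nat.sInf_mem (F.inf y _).nonempty

theorem lm_meas {Y : Type*} [MeasurableSpace Y] (F : Fam Y) (n k : ℕ) :
    MeasurableSet {y | lm F y n = k} := by
  have h1 : {y | lm F y n = k} = ⋃ u : List ℕ, ({y | lmN F y n = u} ∩ {y | sInf (F.S y u) = k}) := by
    ext y
    simp only [mem_setOf_eq, mem_iUnion, mem_inter_iff]
    constructor
    · intro h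
      exact ⟨lmN F y n, rfl, h⟩
    · rintro ⟨u, rfl, h⟩
      exact h
  rw [h1]
  exact MeasurableSet.iUnion fun u => (lmN_meas F n u).inter (sInf_meas' F u k)

theorem lm_bound {Y : Type*} [MeasurableSpace Y] (μ : Measure Y) [IsFiniteMeasure μ]
    (F : Fam Y) {ε : ENNReal} (hε : 0 < ε) :
    ∃ g : ℕ → ℕ, μ {y | ∃ n, g n < lm F y n} ≤ ε := by
  obtain ⟨ε', hε', hsum⟩ := ENNReal.exists_pos_sum_of_countable' hε.ne' ℕ
  have hg : ∀ n, ∃ b : ℕ, μ {y | b < lm F y n} < ε' n := by
    intro n
    have hm : ∀ b : ℕ, MeasurableSet {y | b < lm F y n} := by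
      intro b
      have h1 : {y | b < lm F y n} = (⋃ k : Fin (b + 1), {y | lm F y n = k})ᶜ := by
        ext y
        simp only [mem_setOf_eq, mem_compl_iff, mem_iUnion, not_exists]
        constructor
        · intro h k hk
          have := k.2
          omega
        · intro h
          by_contra h2
          push Not at h2
          exact h ⟨lm F y n, by omega⟩ rfl
      rw [h1]
      exact (MeasurableSet.iUnion fun k : Fin (b + 1) => lm_meas F n (k : ℕ)).compl
    have ht := tendsto_measure_iInter_atTop (μ := μ) (s := fun b : ℕ => {y | b < lm F y n})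
      (fun b => (hm b).nullMeasurableSet) (fun a b hab y hy => lt_of_le_of_lt hab hy)
      ⟨0, measure_ne_top μ _⟩
    have h0 : (⋂ b : ℕ, {y | b < lm F y n}) = ∅ := by
      ext y
      simp only [mem_iInter, mem_setOf_eq, mem_empty_iff_false, iff_false, not_forall, not_lt]
      exact ⟨lm F y n, le_rfl⟩
    rw [h0, measure_empty] at ht
    obtain ⟨b, hb⟩ := (ht.eventually (gt_mem_nhds (hε' n))).exists
    exact ⟨b, hb⟩
  choose g hg using hg
  refine ⟨g, ?_⟩
  have h1 : {y | ∃ n, g n < lm F y n} = ⋃ n, {y | g n < lm F y n} := by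
    ext y
    simp
  rw [h1]
  refine (measure_iUnion_le _).trans ?_
  exact (ENNReal.tsum_le_tsum fun n => (hg n).le).trans hsum.le

end Pool.Agent.Work.MP_994356_lc
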