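import Mathlib
import Pool.Agent.Work.MP_994356_lc.Defs

/-
MODULE BaseDec (size M). Self-contained (uses only Basic, Defs).
dec_coord: given t, R. If i < |t|: every x in br F y t has x i = digit t i (eq_of_pre_eq applied to
pre x |t| = t = pre (digit t) |t|, pre_digit). So take F = R and D = univ if digit t i = j, else D = empty.
If |t| <= i: F.S y u = R.S y u \ {j} if u.length = i, R.S y u otherwise (infinite: Set.Infinite.diff with a
finite set; meas by cases on u.length = i and k = j). D = empty: for x in br F y t, x i is in
F.S y (pre x i), whose node has length i, so x i <> j.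
dec_snd: F = R, D = E.
-/

set_option autoImplicit false

open MeasureTheory Set

namespace Pool.Agent.Work.MP_994356_lc

private theorem bd_digit {t : List ℕ} {x : ℕ → ℕ} (hx : pre x t.length = t) {i : ℕ}
    (hi : i < t.length) : x i = digit t i :=
  eq_of_pre_eq (n := t.length) (by rw [hx, pre_digit]) hi

theorem dec_coord {Y : Type*} [MeasurableSpace Y] (μ : Measure Y) (i j : ℕ) :
    Dec μ {p : (ℕ → ℕ) × Y | p.1 i = j} := by
  intro t R
  rcases Nat.lt_or_ge i t.length with hi | hi
  · by_cases hj : digit t i = j
    · refine ⟨R, Fam.Sub.refl R, univ, MeasurableSet.univ, ?_, ?_⟩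
      · refine Filter.Eventually.of_forall fun y _ x hx => ?_
        show x i = j
        rw [bd_digit hx.1 hi, hj]
      · exact Filter.Eventually.of_forall fun y hy => absurd (mem_univ y) hy
    · refine ⟨R, Fam.Sub.refl R, ∅, MeasurableSet.empty, ?_, ?_⟩
      · exact Filter.Eventually.of_forall fun y hy => absurd hy (notMem_empty y)
      · refine Filter.Eventually.of_forall fun y _ x hx h => ?_
        have h1 : x i = j := h
        rw [bd_digit hx.1 hi] at h1
        exact hj h1
  · let F : Fam Y :=
      { S := fun y u => if u.length = i then R.S y u \ {j} else R.S y u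
        inf := by
          intro y u
          split_ifs
          · exact (R.inf y u).diff (finite_singleton j)
          · exact R.inf y u
        meas := by
          intro u k
          by_cases hu : u.length = i
          · simp only [if_pos hu, mem_diff, mem_singleton_iff]
            by_cases hk : k = j
            · simp [hk]
            · simpa [hk] using R.meas u k
          · simp only [if_neg hu]
            exact R.meas u k }
    refine ⟨F, ?_, ∅, MeasurableSet.empty, ?_, ?_⟩
    · intro y u
      show (if u.length = i then R.S y u \ {j} else R.S y u) ⊆ R.S y u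
      split_ifs
      · exact diff_subset
      · exact Subset.rfl
    · exact Filter.Eventually.of_forall fun y hy => absurd hy (notMem_empty y)
    · refine Filter.Eventually.of_forall fun y _ x hx h => ?_
      have h1 : x i = j := h
      have h2 : x i ∈ (if (pre x i).length = i then R.S y (pre x i) \ {j}
          else R.S y (pre x i)) := hx.2 i hi
      rw [if_pos (pre_length x i)] at h2
      exact h2.2 h1

theorem dec_snd {Y : Type*} [MeasurableSpace Y] (μ : Measure Y) {E : Set Y}
    (hE : MeasurableSet E) : Dec μ {p : (ℕ → ℕ) × Y | p.2 ∈ E} := by
  intro t R
  refine ⟨R, Fam.Sub.refl R, E, hE, ?_, ?_⟩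
  · exact Filter.Eventually.of_forall fun y hy x _ => hy
  · exact Filter.Eventually.of_forall fun y hy x _ => hy

end Pool.Agent.Work.MP_994356_lc
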