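import Mathlib
import Pool.Agent.Work.MP_994356_lc.Defs

/-
MODULE Avoid (size M). Self-contained (uses only Basic, Defs).
Fusion. Let num t = (Nat.unpair t.length).1. Define h G t (classical): if G.Sub S0 then the R' given by
H for (G, t, num t), else G. So hh : forall G t, (h G t).Sub G. Put F' = fuse h R. fuse_sub hh gives F'.Sub R.
All families fuseQ h R t are Sub R (fuseQ_sub), hence Sub S0 (trans), so by fuseR_eq the family
fuseR h R t = h (fuseQ h R t) t satisfies: for almost all y, y in B t implies (x, y) not in A (num t) for all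
x in br (fuseR h R t) y t. Countably many t: ae_all_iff (List Nat is countable).
For such y, a node t, x in br F' y t with y in B (pre x m) for all m >= |t|, and n: let m = Nat.pair n |t|;
|t| <= m (Nat.right_le_pair), num (pre x m) = n (pre_length, Nat.unpair_pair). x in br F' y (pre x m)
(br_node), so x in br (fuseR h R (pre x m)) y (pre x m) (br_fuse); so (x, y) is not in A n.
-/

set_option autoImplicit false

open MeasureTheory Set

namespace Pool.Agent.Work.MP_994356_lc

theorem avoid {Y : Type*} [MeasurableSpace Y] (μ : Measure Y) (S0 : Fam Y)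
    (B : List ℕ → Set Y) (A : ℕ → Set ((ℕ → ℕ) × Y))
    (H : ∀ R : Fam Y, R.Sub S0 → ∀ t n, ∃ R' : Fam Y, R'.Sub R ∧
      ∀ᵐ y ∂μ, y ∈ B t → ∀ x ∈ br R' y t, (x, y) ∉ A n)
    (R : Fam Y) (hR : R.Sub S0) :
    ∃ F : Fam Y, F.Sub R ∧ ∀ᵐ y ∂μ, ∀ t, ∀ x ∈ br F y t,
      (∀ m, t.length ≤ m → y ∈ B (pre x m)) → ∀ n, (x, y) ∉ A n := by
  classical
  let num : List ℕ → ℕ := fun t => (Nat.unpair t.length).1
  let h : Fam Y → List ℕ → Fam Y := fun G t =>
    if hG : G.Sub S0 then (H G hG t (num t)).choose else G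
  have hh : ∀ G t, (h G t).Sub G := by
    intro G t
    by_cases hG : G.Sub S0
    · have h1 : h G t = (H G hG t (num t)).choose := dif_pos hG
      rw [h1]
      exact (H G hG t (num t)).choose_spec.1
    · have h1 : h G t = G := dif_neg hG
      rw [h1]
      exact Fam.Sub.refl G
  have hA : ∀ t : List ℕ, ∀ᵐ y ∂μ, y ∈ B t → ∀ x ∈ br (fuseR h R t) y t, (x, y) ∉ A (num t) := by
    intro t
    have hG : (fuseQ h R t).Sub S0 := (fuseQ_sub hh R t).trans hR
    have h1 : fuseR h R t = (H (fuseQ h R t) hG t (num t)).choose := by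
      rw [fuseR_eq]
      exact dif_pos hG
    rw [h1]
    exact (H (fuseQ h R t) hG t (num t)).choose_spec.2
  refine ⟨fuse h R, fuse_sub hh R, ?_⟩
  filter_upwards [ae_all_iff.2 hA] with y hy t x hx hB n
  have hm : t.length ≤ Nat.pair n t.length := Nat.right_le_pair _ _
  have h1 := br_fuse hh R y _ (br_node hx hm)
  have h2 := hy (pre x (Nat.pair n t.length)) (hB _ hm) x h1
  have h3 : num (pre x (Nat.pair n t.length)) = n := by
    show (Nat.unpair (pre x (Nat.pair n t.length)).length).1 = n
    rw [pre_length, Nat.unpair_pair]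
  rw [h3] at h2
  exact h2

end Pool.Agent.Work.MP_994356_lc
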