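import Mathlib
import Pool.Agent.Work.MP_994356_lc.Defs

/-
MODULE Fin (size M). Self-contained (uses only Basic, Defs).
This is the finiteness step of the union lemma. A is any set, S a family, E t measurable sets, G t
families with (G t).Sub S, InOn μ A (G t) t (E t), and E t is maximal for A, S, t.
Claim: for almost all y, for all t with y not in E t, the set {k in S.S y t | y in E (k :: t)} is finite.
Fix t (ae_all_iff). B = {y | y not in E t and {k | k in S.S y t and y in E (k :: t)} is infinite}, measurable:
infinite iff forall m exists k >= m with k in it (Nat.frequently_atTop_iff_infinite or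
Set.infinite_iff_exists_gt / Set.infinite_of_not_bddAbove), countable intersections and unions.
Glued family F:
 F.S y u = if u = t then (if y in B then {k | k in S.S y t and y in E (k :: t)} else S.S y t)
           else if t.length < u.length then (G (u.drop (u.length - (t.length + 1)))).S y u
           else S.S y u.
It is a Fam (infinite by the definition of B; measurable by cases) and F.Sub S.
For almost all y (all InOn for the nodes k :: t hold) and y in B: every x in br F y t satisfies
k := x |t| in S.S y t with y in E (k :: t) (since pre x |t| = t), and x in br (G (k :: t)) y (k :: t): the stem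
pre x (|t|+1) = k :: t, and for n >= |t|+1 the node u = pre x n has length n > |t| and
u.drop (n - (|t|+1)) = pre x (|t|+1) = k :: t (pre_drop). So (x, y) in A. Hence InOn μ A F t B and by
maximality μ (B \ E t) = 0; B is disjoint from E t, so μ B = 0.
-/

set_option autoImplicit false

open MeasureTheory Set

namespace Pool.Agent.Work.MP_994356_lc

open Classical in
/-- The glued family. -/
noncomputable def glueF {Y : Type*} [MeasurableSpace Y] (S : Fam Y) (E : List ℕ → Set Y)
    (hE : ∀ t, MeasurableSet (E t)) (G : List ℕ → Fam Y) (t : List ℕ) (B : Set Y)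
    (hB : MeasurableSet B) (hinf : ∀ y ∈ B, {k | k ∈ S.S y t ∧ y ∈ E (k :: t)}.Infinite) :
    Fam Y where
  S y u := if u = t then (if y ∈ B then {k | k ∈ S.S y t ∧ y ∈ E (k :: t)} else S.S y t)
    else if t.length < u.length then (G (u.drop (u.length - (t.length + 1)))).S y u
    else S.S y u
  inf y u := by
    split_ifs with h1 h2 h3
    · exact hinf y h2
    · exact S.inf y t
    · exact (G _).inf y u
    · exact S.inf y u
  meas u k := by
    by_cases h1 : u = t
    · have : {y | k ∈ (if u = t then (if y ∈ B then {k | k ∈ S.S y t ∧ y ∈ E (k :: t)}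
          else S.S y t)
          else if t.length < u.length then (G (u.drop (u.length - (t.length + 1)))).S y u
          else S.S y u)} =
          (B ∩ ({y | k ∈ S.S y t} ∩ E (k :: t))) ∪ (Bᶜ ∩ {y | k ∈ S.S y t}) := by
        ext y
        by_cases hy : y ∈ B <;> simp [h1, hy]
      rw [this]
      exact (hB.inter ((S.meas t k).inter (hE _))).union (hB.compl.inter (S.meas t k))
    · by_cases h2 : t.length < u.length
      · simp only [h1, h2, if_false, if_true]
        exact (G _).meas u k
      · simp only [h1, h2, if_false]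
        exact S.meas u k

theorem fin_meas {Y : Type*} [MeasurableSpace Y] (P : ℕ → Set Y)
    (hP : ∀ k, MeasurableSet (P k)) : MeasurableSet {y | {k | y ∈ P k}.Infinite} := by
  have h1 : {y | {k | y ∈ P k}.Infinite} = ⋂ m : ℕ, ⋃ k : ℕ, ⋃ (_ : m < k), P k := by
    ext y
    simp only [mem_setOf_eq, mem_iInter, mem_iUnion]
    constructor
    · intro h m
      obtain ⟨k, hk, hmk⟩ := h.exists_gt m
      exact ⟨k, hmk, hk⟩
    · intro h
      rw [Set.infinite_iff_exists_gt]
      intro m
      obtain ⟨k, hmk, hk⟩ := h m
      exact ⟨k, hk, hmk⟩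
  rw [h1]
  exact MeasurableSet.iInter fun m => MeasurableSet.iUnion fun k =>
    MeasurableSet.iUnion fun _ => hP k

theorem fin_step {Y : Type*} [MeasurableSpace Y] (μ : Measure Y) (A : Set ((ℕ → ℕ) × Y))
    (S : Fam Y) (E : List ℕ → Set Y) (hE : ∀ t, MeasurableSet (E t)) (G : List ℕ → Fam Y)
    (hG : ∀ t, (G t).Sub S) (hin : ∀ t, InOn μ A (G t) t (E t))
    (hmax : ∀ t (E' : Set Y) (F : Fam Y), MeasurableSet E' → SubOn F S t → InOn μ A F t E' →
      μ (E' \ E t) = 0) :
    ∀ᵐ y ∂μ, ∀ t, y ∉ E t → {k | k ∈ S.S y t ∧ y ∈ E (k :: t)}.Finite := by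
  rw [ae_all_iff]
  intro t
  have hBm : MeasurableSet ((E t)ᶜ ∩ {y | {k | y ∈ {y | k ∈ S.S y t} ∩ E (k :: t)}.Infinite}) :=
    (hE t).compl.inter (fin_meas _ fun k => (S.meas t k).inter (hE _))
  set B : Set Y := (E t)ᶜ ∩ {y | {k | y ∈ {y | k ∈ S.S y t} ∩ E (k :: t)}.Infinite} with hBdef
  have hinf : ∀ y ∈ B, {k | k ∈ S.S y t ∧ y ∈ E (k :: t)}.Infinite := fun y hy => hy.2
  let F : Fam Y := glueF S E hE G t B hBm hinf
  have hFsub : F.Sub S := by
    intro y u
    simp only [F, glueF]
    split_ifs with h1 h2 h3
    · subst h1
      exact fun k hk => hk.1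
    · rw [h1]
    · exact hG _ y u
    · exact Subset.rfl
  have hin' : ∀ᵐ y ∂μ, ∀ k : ℕ, y ∈ E (k :: t) → ∀ x ∈ br (G (k :: t)) y (k :: t),
      (x, y) ∈ A := by
    rw [ae_all_iff]
    exact fun k => hin (k :: t)
  have hFin : InOn μ A F t B := by
    filter_upwards [hin'] with y hy hyB x hx
    have hpt : pre x t.length = t := hx.1
    have h0 := hx.2 t.length le_rfl
    rw [hpt] at h0
    simp only [F, glueF, if_true, hyB] at h0
    refine hy (x t.length) h0.2 x ⟨?_, fun n hn => ?_⟩
    · rw [List.length_cons, pre, hpt]
    · rw [List.length_cons] at hn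
      have h1 := hx.2 n (by omega)
      have h2 : pre x n ≠ t := by
        intro h
        have := congrArg List.length h
        rw [pre_length] at this
        omega
      have h3 : t.length < (pre x n).length := by
        rw [pre_length]
        omega
      have h4 : (pre x n).drop ((pre x n).length - (t.length + 1)) = x t.length :: t := by
        rw [pre_length, pre_drop x hn, pre, hpt]
      simp only [F, glueF, if_neg h2, if_pos h3, h4] at h1
      exact h1
  have h0 := hmax t B F hBm (hFsub.subOn t) hFin
  have h1 : B \ E t = B := by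
    ext y
    simp only [mem_sdiff]
    constructor
    · exact fun h => h.1
    · exact fun h => ⟨h, h.1⟩
  rw [h1] at h0
  have h2 : ∀ᵐ y ∂μ, y ∉ B := by
    rw [ae_iff]
    simpa using h0
  filter_upwards [h2] with y hy hyE
  by_contra hcon
  exact hy ⟨hyE, hcon⟩

end Pool.Agent.Work.MP_994356_lc
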