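import Mathlib
import Pool.Agent.Work.MP_994356_lc.Defs

/-
MODULE Max (size M). Self-contained (uses only Basic, Defs).
Maximal sets: exhaustion. Call E' GOOD if it is measurable and there is F with F.Sub R and
InOn μ A F t E'.
(1) GOOD is closed under countable unions: given (E_n, F_n), let i y = least n with y in E_n (0 if there
is none; this is measurable: {i = n} is a Boolean combination of E_0..E_n), F = Fam.sel F_n i. Then
F.Sub R, and for y in the union br F y t = br (F_(i y)) y t (br_sel, rfl) with y in E_(i y). The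
almost everywhere sets: ae_all_iff. Empty set is GOOD with F = R.
(2) Let c = sup of μ E' over the GOOD sets (finite since μ is finite). Take GOOD sets E_n with μ E_n -> c,
E = union; μ E = c. If E' is GOOD then E u E' is GOOD, so μ (E u E') <= c = μ E and μ (E' \ E) = 0.
(3) The statement asks for maximality against F which is only a family of subtrees of R on the cone
of t (SubOn F R t). Replace F by F' with F'.S y u = F.S y u if t <:+ u, R.S y u otherwise (a Fam: meas by
cases, the condition t <:+ u does not depend on y). F'.Sub R and br F' y t = br F y t, because all nodes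
pre x n, n >= |t|, of a branch with pre x |t| = t satisfy t <:+ pre x n (pre_drop: t = drop of pre x n;
List.drop_suffix).
-/

set_option autoImplicit false

open MeasureTheory Set

namespace Pool.Agent.Work.MP_994356_lc

theorem exists_max {Y : Type*} [MeasurableSpace Y] (μ : Measure Y) [IsFiniteMeasure μ]
    (A : Set ((ℕ → ℕ) × Y)) (R : Fam Y) (t : List ℕ) :
    ∃ (E : Set Y) (G : Fam Y), MeasurableSet E ∧ G.Sub R ∧ InOn μ A G t E ∧
      ∀ (E' : Set Y) (F : Fam Y), MeasurableSet E' → SubOn F R t → InOn μ A F t E' →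
        μ (E' \ E) = 0 := by
  classical
  -- the good sets
  let GOOD : Set Y → Prop := fun E' => MeasurableSet E' ∧ ∃ F : Fam Y, F.Sub R ∧ InOn μ A F t E'
  have hU : ∀ E : ℕ → Set Y, (∀ n, GOOD (E n)) → GOOD (⋃ n, E n) := by
    intro E hE
    choose hm F hF hI using hE
    have hi : ∀ y : Y, ∃ i : ℕ, (y ∈ ⋃ n, E n) → (y ∈ E i ∧ ∀ j < i, y ∉ E j) := by
      intro y
      by_cases hy : y ∈ ⋃ n, E n
      · have hy' : ∃ n, y ∈ E n := mem_iUnion.1 hy
        exact ⟨Nat.find hy', fun _ => ⟨Nat.find_spec hy', fun j hj => Nat.find_min hy' hj⟩⟩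
      · exact ⟨0, fun h => absurd h hy⟩
    let i : Y → ℕ := fun y => if hy : ∃ n, y ∈ E n then Nat.find hy else 0
    have him : ∀ n, MeasurableSet {y | i y = n} := by
      intro n
      have h1 : MeasurableSet ({y | y ∈ E n} ∩ ⋂ j ∈ Finset.range n, (E j)ᶜ) :=
        (hm n).inter (Finset.measurableSet_biInter _ fun j _ => (hm j).compl)
      have h2 : MeasurableSet (⋃ n, E n)ᶜ := (MeasurableSet.iUnion hm).compl
      have h3 : {y | i y = n} = ({y | y ∈ E n} ∩ ⋂ j ∈ Finset.range n, (E j)ᶜ) ∪
          (if n = 0 then (⋃ n, E n)ᶜ else ∅) := by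
        ext y
        by_cases hy : ∃ n, y ∈ E n
        · have hiy : i y = Nat.find hy := dif_pos hy
          have hyU : y ∉ (⋃ n, E n)ᶜ := fun h => h (mem_iUnion.2 hy)
          have h4 : y ∉ (if n = 0 then (⋃ n, E n)ᶜ else ∅ : Set Y) := by
            split_ifs
            · exact hyU
            · exact notMem_empty y
          rw [mem_union, or_iff_left h4, mem_setOf_eq, hiy, Nat.find_eq_iff]
          simp [mem_iInter]
        · have hiy : i y = 0 := dif_neg hy
          have h4 : y ∉ ({y | y ∈ E n} ∩ ⋂ j ∈ Finset.range n, (E j)ᶜ : Set Y) :=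
            fun h => hy ⟨n, h.1⟩
          have hyU : y ∈ (⋃ n, E n)ᶜ := fun h => hy (mem_iUnion.1 h)
          rw [mem_union, or_iff_right h4, mem_setOf_eq, hiy]
          constructor
          · intro h0
            rw [if_pos h0.symm]
            exact hyU
          · intro h0
            by_contra h5
            rw [if_neg (fun h6 => h5 h6.symm)] at h0
            exact h0
      rw [h3]
      refine h1.union ?_
      split_ifs
      · exact h2
      · exact MeasurableSet.empty
    refine ⟨MeasurableSet.iUnion hm, Fam.sel F i him, fun y u => hF (i y) y u, ?_⟩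
    have hae : ∀ᵐ y ∂μ, ∀ n, y ∈ E n → ∀ x ∈ br (F n) y t, (x, y) ∈ A := ae_all_iff.2 hI
    show ∀ᵐ y ∂μ, y ∈ ⋃ n, E n → ∀ x ∈ br (Fam.sel F i him) y t, (x, y) ∈ A
    filter_upwards [hae] with y hy hyE x hx
    have hy' : ∃ n, y ∈ E n := mem_iUnion.1 hyE
    have hiy : i y = Nat.find hy' := dif_pos hy'
    rw [br_sel] at hx
    refine hy (i y) ?_ x hx
    rw [hiy]
    exact Nat.find_spec hy'
  have h0 : GOOD ∅ := ⟨MeasurableSet.empty, R, Fam.Sub.refl R, by
    show ∀ᵐ y ∂μ, y ∈ (∅ : Set Y) → _
    exact Filter.Eventually.of_forall fun y hy => absurd hy (notMem_empty y)⟩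
  -- the supremum
  let M : Set ENNReal := {c | ∃ E', GOOD E' ∧ c = μ E'}
  have hMne : M.Nonempty := ⟨μ ∅, ∅, h0, rfl⟩
  obtain ⟨u, -, hu, huM⟩ := exists_seq_tendsto_sSup hMne (OrderTop.bddAbove M)
  choose E hE hEu using huM
  have hgood := hU E hE
  have hle : sSup M ≤ μ (⋃ n, E n) := by
    refine le_of_tendsto' hu fun n => ?_
    rw [hEu n]
    exact measure_mono (subset_iUnion E n)
  obtain ⟨hmE, G, hG, hGI⟩ := hgood
  refine ⟨⋃ n, E n, G, hmE, hG, hGI, fun E' F hE' hF hFI => ?_⟩
  -- the extension of `F`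
  let F' : Fam Y :=
    { S := fun y u => if t <:+ u then F.S y u else R.S y u
      inf := by
        intro y u
        by_cases h : t <:+ u
        · rw [if_pos h]
          exact F.inf y u
        · rw [if_neg h]
          exact R.inf y u
      meas := by
        intro u k
        by_cases h : t <:+ u
        · simp only [if_pos h]
          exact F.meas u k
        · simp only [if_neg h]
          exact R.meas u k }
  have hF'R : F'.Sub R := by
    intro y u
    show (if t <:+ u then F.S y u else R.S y u) ⊆ R.S y u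
    by_cases h : t <:+ u
    · rw [if_pos h]
      exact hF y u h
    · rw [if_neg h]
  have hsuf : ∀ (x : ℕ → ℕ) (n : ℕ), pre x t.length = t → t.length ≤ n → t <:+ pre x n := by
    intro x n hx hn
    have h1 := pre_drop x hn
    rw [hx] at h1
    have h2 : List.drop (n - t.length) (pre x n) <:+ pre x n := List.drop_suffix _ _
    rwa [h1] at h2
  have hbr : ∀ y, br F' y t = br F y t := by
    intro y
    ext x
    constructor
    · rintro ⟨h1, h2⟩
      refine ⟨h1, fun n hn => ?_⟩
      have h3 : x n ∈ (if t <:+ pre x n then F.S y (pre x n) else R.S y (pre x n)) := h2 n hn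
      rwa [if_pos (hsuf x n h1 hn)] at h3
    · rintro ⟨h1, h2⟩
      refine ⟨h1, fun n hn => ?_⟩
      show x n ∈ (if t <:+ pre x n then F.S y (pre x n) else R.S y (pre x n))
      rw [if_pos (hsuf x n h1 hn)]
      exact h2 n hn
  have hE'good : GOOD E' := ⟨hE', F', hF'R, by
    show ∀ᵐ y ∂μ, y ∈ E' → ∀ x ∈ br F' y t, (x, y) ∈ A
    filter_upwards [hFI] with y hy
    rw [hbr]
    exact hy⟩
  have hun : GOOD (E' ∪ ⋃ n, E n) := by
    have h1 := hU (fun n => if n = 0 then E' else ⋃ n, E n) (fun n => by
      by_cases h : n = 0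
      · simp only [if_pos h]
        exact hE'good
      · simp only [if_neg h]
        exact ⟨hmE, G, hG, hGI⟩)
    have h2 : (⋃ n : ℕ, (if n = 0 then E' else ⋃ n, E n)) = E' ∪ ⋃ n, E n := by
      apply Subset.antisymm
      · refine iUnion_subset fun n => ?_
        by_cases h : n = 0
        · rw [if_pos h]
          exact subset_union_left
        · rw [if_neg h]
          exact subset_union_right
      · refine union_subset ?_ ?_
        · have h3 : E' ⊆ (if (0 : ℕ) = 0 then E' else ⋃ n, E n) := by rw [if_pos rfl]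
          exact h3.trans (subset_iUnion (fun n : ℕ => if n = 0 then E' else ⋃ n, E n) 0)
        · have h3 : (⋃ n, E n) ⊆ (if (1 : ℕ) = 0 then E' else ⋃ n, E n) := by
            rw [if_neg one_ne_zero]
          exact h3.trans (subset_iUnion (fun n : ℕ => if n = 0 then E' else ⋃ n, E n) 1)
    rw [h2] at h1
    exact h1
  have hsup : μ (E' ∪ ⋃ n, E n) ≤ μ (⋃ n, E n) :=
    (le_sSup (show μ (E' ∪ ⋃ n, E n) ∈ M from ⟨_, hun, rfl⟩)).trans hle
  have h3 : μ (E' \ ⋃ n, E n) + μ (⋃ n, E n) = μ (E' ∪ ⋃ n, E n) := by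
    rw [← measure_union disjoint_sdiff_left hmE, sdiff_union_self]
  have h4 : μ (E' \ ⋃ n, E n) + μ (⋃ n, E n) ≤ 0 + μ (⋃ n, E n) := by
    rw [h3, zero_add]
    exact hsup
  exact le_antisymm ((ENNReal.add_le_add_iff_right (measure_ne_top μ _)).1 h4) zero_le

end Pool.Agent.Work.MP_994356_lc
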