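import Mathlib
import Pool.Agent.Work.MP_994356_lc.Defs
import Pool.Agent.Work.MP_994356_lc.Max
import Pool.Agent.Work.MP_994356_lc.Avoid
import Pool.Agent.Work.MP_994356_lc.Fin

/-
MODULE Union (size M). Cites exists_max, avoid, fin_step (sorry is fine while they are open).
Let U = union of A n; t0 and S := R given. choose E G from exists_max μ U S t (all t). fin_step gives: for
almost all y, all t with y not in E t: {k in S.S y t | y in E (k :: t)} is finite.
S1.S y t = if {k | k in S.S y t and y in E (k :: t)} is finite then {k | k in S.S y t and y not in E (k :: t)}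
else S.S y t. It is a Fam (infinite: Infinite.diff; measurable: finiteness = exists m forall k >= m not in)
and S1.Sub S. Apply avoid with S0 = S, B t = complement of E t, A, R = S1; hypothesis H: given R <= S, t, n,
take R' <= R and D' from the hypothesis (h n) t R (the set A n is decided). InOn μ (A n) R' t D' implies
InOn μ U R' t D', so μ (D' \ E t) = 0 by maximality (Sub.subOn, trans); so for almost all y not in E t: y is
not in D' and x in br R' y t gives (x, y) not in A n.
We get S2 <= S1 with: for almost all y, all x in br S2 y t0 with y not in E (pre x m) for all m >= |t0| are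
in no A n. For almost all y not in E t0 the condition holds for every x in br S2 y t0 (inside br S1 y t0):
induction on m: pre x |t0| = t0, and if y is not in E (pre x m) then S1.S y (pre x m) =
{k in S.S y (pre x m) | y not in E (k :: pre x m)} contains x m, and pre x (m+1) = x m :: pre x m.
Finally F = Fam.ite (E t0) (G t0) S2 and D = E t0 (br_ite_pos, br_ite_neg, Fam.ite_sub).
-/

set_option autoImplicit false

open MeasureTheory Set

namespace Pool.Agent.Work.MP_994356_lc

open Classical in
/-- The family without the next values which lead to a maximal set. -/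
noncomputable def cutF {Y : Type*} [MeasurableSpace Y] (S : Fam Y) (E : List ℕ → Set Y)
    (hE : ∀ t, MeasurableSet (E t)) : Fam Y where
  S y t := if {k | y ∈ {y | k ∈ S.S y t} ∩ E (k :: t)}.Infinite then S.S y t
    else {k | k ∈ S.S y t ∧ y ∉ E (k :: t)}
  inf y t := by
    split_ifs with h
    · exact S.inf y t
    · rw [Set.not_infinite] at h
      have h1 := (S.inf y t).sdiff h
      refine h1.mono ?_
      rintro k ⟨hk1, hk2⟩
      exact ⟨hk1, fun hk3 => hk2 ⟨hk1, hk3⟩⟩
  meas t k := by
    have hI : MeasurableSet {y | {k | y ∈ {y | k ∈ S.S y t} ∩ E (k :: t)}.Infinite} :=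
      fin_meas _ fun k => (S.meas t k).inter (hE _)
    have : {y | k ∈ (if {k | y ∈ {y | k ∈ S.S y t} ∩ E (k :: t)}.Infinite then S.S y t
        else {k | k ∈ S.S y t ∧ y ∉ E (k :: t)})} =
        ({y | {k | y ∈ {y | k ∈ S.S y t} ∩ E (k :: t)}.Infinite} ∩ {y | k ∈ S.S y t}) ∪
        ({y | {k | y ∈ {y | k ∈ S.S y t} ∩ E (k :: t)}.Infinite}ᶜ ∩
          ({y | k ∈ S.S y t} ∩ (E (k :: t))ᶜ)) := by
      ext y
      by_cases hy : {k | y ∈ {y | k ∈ S.S y t} ∩ E (k :: t)}.Infinite
      · have hy' : y ∈ {y | {k | y ∈ {y | k ∈ S.S y t} ∩ E (k :: t)}.Infinite} := hy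
        constructor
        · intro h1
          have h2 : k ∈ (if {k | y ∈ {y | k ∈ S.S y t} ∩ E (k :: t)}.Infinite then S.S y t
            else {k | k ∈ S.S y t ∧ y ∉ E (k :: t)}) := h1
          rw [if_pos hy] at h2
          exact Or.inl ⟨hy', h2⟩
        · rintro (h1 | h1)
          · change k ∈ (if {k | y ∈ {y | k ∈ S.S y t} ∩ E (k :: t)}.Infinite then S.S y t
              else {k | k ∈ S.S y t ∧ y ∉ E (k :: t)})
            rw [if_pos hy]
            exact h1.2
          · exact absurd hy' h1.1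
      · have hy' : y ∉ {y | {k | y ∈ {y | k ∈ S.S y t} ∩ E (k :: t)}.Infinite} := hy
        constructor
        · intro h1
          have h2 : k ∈ (if {k | y ∈ {y | k ∈ S.S y t} ∩ E (k :: t)}.Infinite then S.S y t
            else {k | k ∈ S.S y t ∧ y ∉ E (k :: t)}) := h1
          rw [if_neg hy] at h2
          exact Or.inr ⟨hy', h2.1, h2.2⟩
        · rintro (h1 | h1)
          · exact absurd h1.1 hy'
          · change k ∈ (if {k | y ∈ {y | k ∈ S.S y t} ∩ E (k :: t)}.Infinite then S.S y t
              else {k | k ∈ S.S y t ∧ y ∉ E (k :: t)})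
            rw [if_neg hy]
            exact ⟨h1.2.1, h1.2.2⟩
    rw [this]
    exact (hI.inter (S.meas t k)).union (hI.compl.inter ((S.meas t k).inter (hE _).compl))

theorem cutF_sub {Y : Type*} [MeasurableSpace Y] (S : Fam Y) (E : List ℕ → Set Y)
    (hE : ∀ t, MeasurableSet (E t)) : (cutF S E hE).Sub S := by
  intro y t
  simp only [cutF]
  split_ifs with h
  · exact Subset.rfl
  · exact fun k hk => hk.1

theorem cutF_mem {Y : Type*} [MeasurableSpace Y] {S : Fam Y} {E : List ℕ → Set Y}
    {hE : ∀ t, MeasurableSet (E t)} {y : Y} {t : List ℕ}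
    (h : {k | k ∈ S.S y t ∧ y ∈ E (k :: t)}.Finite) {k : ℕ} (hk : k ∈ (cutF S E hE).S y t) :
    y ∉ E (k :: t) := by
  have h1 : ¬ {k | y ∈ {y | k ∈ S.S y t} ∩ E (k :: t)}.Infinite := by
    rw [Set.not_infinite]
    exact h
  simp only [cutF] at hk
  rw [if_neg h1] at hk
  exact hk.2

theorem dec_iUnion {Y : Type*} [MeasurableSpace Y] (μ : Measure Y) [IsFiniteMeasure μ]
    (A : ℕ → Set ((ℕ → ℕ) × Y)) (h : ∀ n, Dec μ (A n)) : Dec μ (⋃ n, A n) := by
  intro t0 S
  have hM := fun t => exists_max μ (⋃ n, A n) S t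
  choose E G hE hG hin hmax using hM
  have hfin := fin_step μ (⋃ n, A n) S E hE G hG hin hmax
  have H : ∀ R : Fam Y, R.Sub S → ∀ t n, ∃ R' : Fam Y, R'.Sub R ∧
      ∀ᵐ y ∂μ, y ∈ (fun t => (E t)ᶜ) t → ∀ x ∈ br R' y t, (x, y) ∉ A n := by
    intro R hR t n
    obtain ⟨F, hF, D, hD, h1, h2⟩ := h n t R
    refine ⟨F, hF, ?_⟩
    have h3 := hmax t D F hD ((hF.trans hR).subOn t) (h1.mono (subset_iUnion A n))
    have h4 : ∀ᵐ y ∂μ, y ∉ D \ E t := by
      rw [ae_iff]
      have h5 : {y | ¬ y ∉ D \ E t} = D \ E t := by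
        ext y
        exact not_not
      rw [h5]
      exact h3
    filter_upwards [h2, h4] with y hy1 hy2 hy3 x hx
    exact hy1 (fun hyD => hy2 ⟨hyD, hy3⟩) x hx
  obtain ⟨S2, hS2, h5⟩ := avoid μ S (fun t => (E t)ᶜ) A H (cutF S E hE) (cutF_sub S E hE)
  refine ⟨Fam.ite (E t0) (hE t0) (G t0) S2,
    Fam.ite_sub (hG t0) (hS2.trans (cutF_sub S E hE)), E t0, hE t0, ?_, ?_⟩
  · filter_upwards [hin t0] with y hy hyE x hx
    rw [br_ite_pos hyE] at hx
    exact hy hyE x hx
  · filter_upwards [h5, hfin] with y hy hyf hyE x hx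
    rw [br_ite_neg hyE] at hx
    have hc : ∀ m, t0.length ≤ m → y ∈ (E (pre x m))ᶜ := by
      intro m hm
      induction m, hm using Nat.le_induction with
      | base =>
        rw [hx.1]
        exact hyE
      | succ m hm ih =>
        have h6 := hS2 y _ (hx.2 m hm)
        exact cutF_mem (hyf (pre x m) ih) h6
    have h7 := hy t0 x hx hc
    rw [mem_compl_iff, mem_iUnion, not_exists]
    exact h7

end Pool.Agent.Work.MP_994356_lc
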