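import Mathlib
import Pool.Agent.Work.MP_994356_lc.Defs
import Pool.Agent.Work.MP_994356_lc.BaseDec
import Pool.Agent.Work.MP_994356_lc.Union

/-
MODULE Sigma (size S/M). Cites dec_coord, dec_snd, dec_iUnion (sorry is fine while they are open).
The sets with Dec μ form a sigma-algebra m' on (Nat -> Nat) x Y (empty = complement of a set
{p | p.2 in univ}; compl: Dec.compl; iUnion: dec_iUnion). Show Prod.instMeasurableSpace <= m': both
projections are measurable from m': snd by dec_snd (with MeasurableSet E), fst: MeasurableSpace.pi is the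
supremum over i of the comaps of the evaluations, and for T a subset of Nat the set {p | p.1 i in T} is
the countable union over j in T of {p | p.1 i = j} (or measurable_to_countable'). The finite
intersection and union statements follow from the sigma-algebra m'.
-/

set_option autoImplicit false

open MeasureTheory Set

namespace Pool.Agent.Work.MP_994356_lc

private theorem dec_empty {Y : Type*} [MeasurableSpace Y] (μ : Measure Y) :
    Dec μ (∅ : Set ((ℕ → ℕ) × Y)) := by
  have h := dec_snd μ (E := (∅ : Set Y)) MeasurableSet.empty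
  have h1 : {p : (ℕ → ℕ) × Y | p.2 ∈ (∅ : Set Y)} = ∅ := by
    ext p
    simp
  rwa [h1] at h

private def decSpace {Y : Type*} [MeasurableSpace Y] (μ : Measure Y) [IsFiniteMeasure μ] :
    MeasurableSpace ((ℕ → ℕ) × Y) where
  MeasurableSet' A := Dec μ A
  measurableSet_empty := dec_empty μ
  measurableSet_compl _ h := h.compl
  measurableSet_iUnion f h := dec_iUnion μ f h

theorem dec_of_measurable {Y : Type*} [MeasurableSpace Y] (μ : Measure Y) [IsFiniteMeasure μ]
    {A : Set ((ℕ → ℕ) × Y)} (hA : MeasurableSet A) : Dec μ A := by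
  have hle : (inferInstance : MeasurableSpace ((ℕ → ℕ) × Y)) ≤ decSpace μ := by
    refine sup_le ?_ ?_
    · rw [MeasurableSpace.comap_le_iff_le_map]
      refine iSup_le fun i => ?_
      rw [MeasurableSpace.comap_le_iff_le_map]
      intro T _
      change Dec μ ((fun p : (ℕ → ℕ) × Y => p.1) ⁻¹' ((fun x : ℕ → ℕ => x i) ⁻¹' T))
      classical
      have h2 : ((fun p : (ℕ → ℕ) × Y => p.1) ⁻¹' ((fun x : ℕ → ℕ => x i) ⁻¹' T)) =
          ⋃ j : ℕ, (if j ∈ T then {p : (ℕ → ℕ) × Y | p.1 i = j} else ∅) := by
        ext p
        simp only [mem_preimage, mem_iUnion]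
        constructor
        · intro h
          exact ⟨p.1 i, by rw [if_pos h]; rfl⟩
        · rintro ⟨j, hj⟩
          by_cases h : j ∈ T
          · rw [if_pos h] at hj
            have h3 : p.1 i = j := hj
            rw [h3]
            exact h
          · rw [if_neg h] at hj
            exact absurd hj (notMem_empty p)
      rw [h2]
      refine dec_iUnion μ _ fun j => ?_
      by_cases h : j ∈ T
      · rw [if_pos h]
        exact dec_coord μ i j
      · rw [if_neg h]
        exact dec_empty μ
    · rw [MeasurableSpace.comap_le_iff_le_map]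
      intro E hE
      exact dec_snd μ hE
  exact hle A hA

theorem dec_inter {Y : Type*} [MeasurableSpace Y] (μ : Measure Y) [IsFiniteMeasure μ]
    {A B : Set ((ℕ → ℕ) × Y)} (hA : Dec μ A) (hB : Dec μ B) : Dec μ (A ∩ B) := by
  have h1 : MeasurableSet[decSpace μ] A := hA
  have h2 : MeasurableSet[decSpace μ] B := hB
  exact @MeasurableSet.inter _ (decSpace μ) _ _ h1 h2

theorem dec_diff_iUnion {Y : Type*} [MeasurableSpace Y] (μ : Measure Y) [IsFiniteMeasure μ]
    {A : Set ((ℕ → ℕ) × Y)} {B : ℕ → Set ((ℕ → ℕ) × Y)} (hA : Dec μ A) (hB : ∀ k, Dec μ (B k)) :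
    Dec μ (A \ ⋃ k, B k) := by
  have h1 : MeasurableSet[decSpace μ] A := hA
  have h2 : MeasurableSet[decSpace μ] (⋃ k, B k) := dec_iUnion μ B hB
  exact @MeasurableSet.diff _ (decSpace μ) _ _ h1 h2

end Pool.Agent.Work.MP_994356_lc
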