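import Mathlib
import Pool.Agent.Work.MP_994356_lc.Defs
import Pool.Agent.Work.MP_994356_lc.Max

/-
MODULE SousF (size M). Cites exists_max (sorry is fine while open).
For every family Q and node t choose E(Q,t), G(Q,t) from exists_max μ (SousAt P (enumN |t|))ᶜ Q t.
h Q t := Fam.ite (E(Q,t)) _ (G(Q,t)) Q; hh : (h Q t).Sub Q (Fam.ite_sub, Sub.refl). S := fuse h R, E t := E(Q_t,t)
with Q_t = fuseQ h R t. By fuseR_eq, fuseR h R t = Fam.ite (E t) _ (G(Q_t,t)) Q_t.
(a) for almost all y, all t (countable), y in E t, x in br S y t: x in br (fuseR h R t) y t (br_fuse) =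
br (G(Q_t,t)) y t (br_ite_pos), so (x,y) in the complement of SousAt.
(b) SubOn R' S t implies SubOn R' Q_t t: for u with t <:+ u, S.S y u = (fuseR h R u).S y u, contained in
(fuseR h R t).S y u (fuseR_append_sub, u = v ++ t), contained in Q_t.S y u (hh, fuseR_eq). So maximality of
exists_max applies.
-/

set_option autoImplicit false

open MeasureTheory Set

namespace Pool.Agent.Work.MP_994356_lc

theorem sous_fuse {Y : Type*} [MeasurableSpace Y] (μ : Measure Y) [IsFiniteMeasure μ]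
    (P : List ℕ → Set ((ℕ → ℕ) × Y)) (R : Fam Y) :
    ∃ (S : Fam Y) (E : List ℕ → Set Y), S.Sub R ∧ (∀ t, MeasurableSet (E t)) ∧
      (∀ᵐ y ∂μ, ∀ t, y ∈ E t → ∀ x ∈ br S y t, (x, y) ∉ SousAt P (enumN t.length)) ∧
      (∀ t (E' : Set Y) (R' : Fam Y), MeasurableSet E' → SubOn R' S t →
        InOn μ (SousAt P (enumN t.length))ᶜ R' t E' → μ (E' \ E t) = 0) := by
  classical
  choose E0 G0 hE0 hG0 hin0 hmax0 using
    fun (Q : Fam Y) (t : List ℕ) => exists_max μ (SousAt P (enumN t.length))ᶜ Q t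
  let h : Fam Y → List ℕ → Fam Y := fun Q t => Fam.ite (E0 Q t) (hE0 Q t) (G0 Q t) Q
  have hh : ∀ G t, (h G t).Sub G := fun G t => Fam.ite_sub (hG0 G t) (Fam.Sub.refl G)
  refine ⟨fuse h R, fun t => E0 (fuseQ h R t) t, fuse_sub hh R, fun t => hE0 _ _, ?_, ?_⟩
  · have h1 : ∀ᵐ y ∂μ, ∀ t, y ∈ E0 (fuseQ h R t) t → ∀ x ∈ br (G0 (fuseQ h R t) t) y t,
        (x, y) ∈ (SousAt P (enumN t.length))ᶜ := by
      rw [ae_all_iff]
      intro t
      exact hin0 (fuseQ h R t) t
    filter_upwards [h1] with y hy t hyE x hx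
    have h2 := br_fuse hh R y t hx
    rw [fuseR_eq] at h2
    have h3 : x ∈ br (G0 (fuseQ h R t) t) y t := by
      have h4 : br (h (fuseQ h R t) t) y t = br (G0 (fuseQ h R t) t) y t :=
        br_ite_pos hyE t
      rwa [h4] at h2
    exact hy t hyE x h3
  · intro t E' R' hE' hsub hin
    refine hmax0 (fuseQ h R t) t E' R' hE' ?_ hin
    intro y u htu
    refine (hsub y u htu).trans ?_
    obtain ⟨v, rfl⟩ := htu
    intro k hk
    have h1 := fuseR_append_sub hh R v t y (v ++ t) hk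
    rw [fuseR_eq] at h1
    exact hh (fuseQ h R t) t y (v ++ t) h1

end Pool.Agent.Work.MP_994356_lc
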