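import Mathlib
import Pool.Agent.Work.MP_994356_lc.Defs

/-
MODULE Tree (size S). Self-contained (uses only Basic, Defs).
TM R t u = {y | t <:+ u and for |t| <= i < |u|: digit u i in R.S y (pre (digit u) i)}.
measurableSet_TM: the first condition does not depend on y; the second is a countable intersection.
br_of_TM: x in br R y u means pre x |u| = u = pre (digit u) |u| (pre_digit), so x i = digit u i for i < |u|
(eq_of_pre_eq) and pre x i = pre (digit u) i for i <= |u| (pre_congr); pre x |t| = t because t is a suffix of
u = pre x |u| (pre_drop; List.suffix_iff_eq_drop). TM_pre: u = pre x m: digit u i = x i for i < m, and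
t = pre x |t| = drop of pre x m is a suffix (List.drop_suffix).
-/

set_option autoImplicit false

open MeasureTheory Set

namespace Pool.Agent.Work.MP_994356_lc

theorem measurableSet_TM {Y : Type*} [MeasurableSpace Y] (R : Fam Y) (t u : List ℕ) :
    MeasurableSet (TM R t u) := by
  have h : TM R t u = {_y | t <:+ u} ∩
      ⋂ i : ℕ, {y | t.length ≤ i → i < u.length → digit u i ∈ R.S y (pre (digit u) i)} := by
    ext y
    simp only [TM, mem_setOf_eq, mem_inter_iff, mem_iInter]
  rw [h]
  refine (MeasurableSet.const _).inter (MeasurableSet.iInter fun i => ?_)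
  by_cases h1 : t.length ≤ i
  · by_cases h2 : i < u.length
    · have : {y | t.length ≤ i → i < u.length → digit u i ∈ R.S y (pre (digit u) i)} =
          {y | digit u i ∈ R.S y (pre (digit u) i)} := by
        ext y
        simp only [mem_setOf_eq]
        exact ⟨fun hy => hy h1 h2, fun hy _ _ => hy⟩
      rw [this]
      exact R.meas _ _
    · have : {y | t.length ≤ i → i < u.length → digit u i ∈ R.S y (pre (digit u) i)} = univ := by
        ext y
        simp only [mem_setOf_eq, mem_univ, iff_true]
        exact fun _ h3 => absurd h3 h2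
      rw [this]
      exact MeasurableSet.univ
  · have : {y | t.length ≤ i → i < u.length → digit u i ∈ R.S y (pre (digit u) i)} = univ := by
      ext y
      simp only [mem_setOf_eq, mem_univ, iff_true]
      exact fun h3 => absurd h3 h1
    rw [this]
    exact MeasurableSet.univ

theorem br_of_TM {Y : Type*} [MeasurableSpace Y] {R : Fam Y} {t u : List ℕ} {y : Y}
    (hy : y ∈ TM R t u) : br R y u ⊆ br R y t := by
  intro x hx
  obtain ⟨hs, hd⟩ := hy
  obtain ⟨h1, h2⟩ := hx
  have hlen : t.length ≤ u.length := hs.length_le
  have h3 : pre x u.length = pre (digit u) u.length := by rw [h1, pre_digit]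
  refine ⟨?_, fun n hn => ?_⟩
  · rw [← pre_drop x hlen, h1]
    exact (List.suffix_iff_eq_drop.1 hs).symm
  · rcases lt_or_ge n u.length with hnu | hnu
    · have e1 : x n = digit u n := eq_of_pre_eq h3 hnu
      have e2 : pre x n = pre (digit u) n :=
        pre_congr fun i hi => eq_of_pre_eq h3 (hi.trans hnu)
      rw [e1, e2]
      exact hd n hn hnu
    · exact h2 n hnu

theorem TM_pre {Y : Type*} [MeasurableSpace Y] {R : Fam Y} {t : List ℕ} {y : Y} {x : ℕ → ℕ}
    (hx : x ∈ br R y t) {m : ℕ} (hm : t.length ≤ m) : y ∈ TM R t (pre x m) := by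
  obtain ⟨h1, h2⟩ := hx
  refine ⟨?_, fun i hi hi2 => ?_⟩
  · have h3 := pre_drop x hm
    rw [h1] at h3
    rw [← h3]
    exact List.drop_suffix _ _
  · rw [pre_length] at hi2
    have h3 : pre (digit (pre x m)) m = pre x m := by
      have := pre_digit (pre x m)
      rwa [pre_length] at this
    have e1 : digit (pre x m) i = x i := eq_of_pre_eq h3 hi2
    have e2 : pre (digit (pre x m)) i = pre x i :=
      pre_congr fun j hj => eq_of_pre_eq h3 (hj.trans hi2)
    rw [e1, e2]
    exact h2 i hi


end Pool.Agent.Work.MP_994356_lc
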