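import Mathlib
import Pool.Agent.Work.MP_994356_lc.Defs
import Pool.Agent.Work.MP_994356_lc.Tree

/-
MODULE SousN (size M). Cites measurableSet_TM, br_of_TM, TM_pre (Tree; sorry is fine while open).
S is the fused family, E t (= F_t of the plan) measurable sets with
 (a) ha: for almost all y, all t, y in E t: all x in br S y t are not in SousAt P (enumN |t|);
 (b) hb: E t is maximal: R <= S on the cone of t and InOn μ (SousAt P (enumN |t|))ᶜ R t E' give μ(E' \ E t) = 0.
H s = {(x,y) | exists M, forall m >= M, enumN m = s -> y not in E (pre x m)} inter P s; N s = H s \ union H (k :: s).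
Claim: if R.Sub S, D measurable and InOn μ (N s) R t D then μ D = 0.
Proof. For almost all y in D and all x in br R y t: (x,y) in H s and in no H (k :: s). For every k: either
(x,y) not in P (k :: s), and then not in SousAt P (k :: s) (sousAt_subset); or there are arbitrarily large m
with enumN m = k :: s and y in E (pre x m); take m >= |t|: x in br R y (pre x m) (br_node), in
br S y (pre x m) (br_mono), so by (a) (pre_length) (x,y) is not in SousAt P (k :: s). So (x,y) is not in
SousAt P s (sousAt_eq). Thus InOn μ (SousAt P s)ᶜ R t D.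
For a node u with enumN |u| = s: D_u = D inter TM R t u is measurable and InOn μ (SousAt P s)ᶜ R u D_u
(br_of_TM), so μ (D_u \ E u) = 0 by (b) (Sub.subOn). Countably many u: for almost all y in D: y in E u for all
u with enumN |u| = s and y in TM R t u. Take x in br R y t (br_nonempty); (x,y) in H s gives M; take
m >= max M |t| with enumN m = s (exists_enumN); u = pre x m: y in TM R t u (TM_pre), so y in E (pre x m):
contradiction. So almost no y is in D.
-/

set_option autoImplicit false

open MeasureTheory Set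

namespace Pool.Agent.Work.MP_994356_lc

/-- Eventually the removed sets attached to the node `s` do not catch the pair. -/
def EvOut {Y : Type*} (E : List ℕ → Set Y) (s : List ℕ) : Set ((ℕ → ℕ) × Y) :=
  {p | ∃ M, ∀ m, M ≤ m → enumN m = s → p.2 ∉ E (pre p.1 m)}

/-- The hulls. -/
def Hull {Y : Type*} (P : List ℕ → Set ((ℕ → ℕ) × Y)) (E : List ℕ → Set Y) (s : List ℕ) :
    Set ((ℕ → ℕ) × Y) := EvOut E s ∩ P s

/-- The defect sets. -/
def NullH {Y : Type*} (P : List ℕ → Set ((ℕ → ℕ) × Y)) (E : List ℕ → Set Y) (s : List ℕ) :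
    Set ((ℕ → ℕ) × Y) := Hull P E s \ ⋃ k, Hull P E (k :: s)

theorem null_of_inOn {Y : Type*} [MeasurableSpace Y] (μ : Measure Y)
    (P : List ℕ → Set ((ℕ → ℕ) × Y)) (S : Fam Y) (E : List ℕ → Set Y)
    (ha : ∀ᵐ y ∂μ, ∀ t, y ∈ E t → ∀ x ∈ br S y t, (x, y) ∉ SousAt P (enumN t.length))
    (hb : ∀ t (E' : Set Y) (R : Fam Y), MeasurableSet E' → SubOn R S t →
      InOn μ (SousAt P (enumN t.length))ᶜ R t E' → μ (E' \ E t) = 0)
    (s t : List ℕ) (R : Fam Y) (hR : R.Sub S) (D : Set Y) (hD : MeasurableSet D)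
    (hin : InOn μ (NullH P E s) R t D) : μ D = 0 := by
  classical
  -- the Souslin set is avoided above `t`
  have h1 : InOn μ (SousAt P s)ᶜ R t D := by
    filter_upwards [hin, ha] with y hy hay hyD x hx
    obtain ⟨hH, hNo⟩ := hy hyD x hx
    show (x, y) ∉ SousAt P s
    rw [sousAt_eq, mem_iUnion]
    rintro ⟨k, hk⟩
    apply hNo
    rw [mem_iUnion]
    refine ⟨k, ?_, sousAt_subset P (k :: s) hk⟩
    by_contra hev
    simp only [EvOut, mem_setOf_eq, not_exists, not_forall, not_not] at hev
    obtain ⟨m, hm, hms, hmE⟩ := hev t.length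
    have h2 : x ∈ br S y (pre x m) := br_mono hR y _ (br_node hx hm)
    have h3 := hay (pre x m) hmE x h2
    rw [pre_length, hms] at h3
    exact h3 hk
  have h2 : ∀ᵐ y ∂μ, ∀ u : List ℕ, enumN u.length = s → ¬ (y ∈ (D ∩ TM R t u) \ E u) := by
    rw [ae_all_iff]
    intro u
    by_cases hu : enumN u.length = s
    · have h3 : InOn μ (SousAt P (enumN u.length))ᶜ R u (D ∩ TM R t u) := by
        rw [hu]
        filter_upwards [h1] with y hy hyD x hx
        exact hy hyD.1 x (br_of_TM hyD.2 hx)
      have h4 := hb u (D ∩ TM R t u) R (hD.inter (measurableSet_TM R t u)) (hR.subOn u) h3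
      have h5 : ∀ᵐ y ∂μ, y ∉ (D ∩ TM R t u) \ E u := measure_eq_zero_iff_ae_notMem.1 h4
      filter_upwards [h5] with y hy _ using hy
    · exact Filter.Eventually.of_forall fun y h => absurd h hu
  rw [measure_eq_zero_iff_ae_notMem]
  filter_upwards [h2, hin] with y hy hyin hyD
  obtain ⟨x, hx⟩ := br_nonempty R y t
  obtain ⟨⟨⟨M, hM⟩, _⟩, _⟩ := hyin hyD x hx
  obtain ⟨m, hm, hms⟩ := exists_enumN s (max M t.length)
  have h3 : y ∈ TM R t (pre x m) := TM_pre hx ((le_max_right _ _).trans hm)
  have h4 := hM m ((le_max_left _ _).trans hm) hms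
  have h5 := hy (pre x m) (by rw [pre_length]; exact hms)
  exact h5 ⟨⟨hyD, h3⟩, h4⟩

end Pool.Agent.Work.MP_994356_lc
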