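import Mathlib
import Pool.Agent.Work.MP_994356_lc.Defs
import Pool.Agent.Work.MP_994356_lc.Avoid
import Pool.Agent.Work.MP_994356_lc.Sigma
import Pool.Agent.Work.MP_994356_lc.SousN
import Pool.Agent.Work.MP_994356_lc.SousF

/-
MODULE Souslin (size M). Cites sous_fuse, null_of_inOn, avoid, dec_of_measurable, dec_inter,
dec_diff_iUnion (sorry is fine while they are open).
Given t0, R. sous_fuse gives S <= R, E with (a), (b). EvOut E s is a measurable subset of the product
(exists M, forall m: countable; {p | p.2 in E (pre p.1 m)} = union over u of {p | pre p.1 m = u} inter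
{p | p.2 in E u}, where p |-> pre p.1 m is measurable into the countable type List Nat with its discrete
structure: show {x | pre x m = u} measurable by induction on m). So Hull P E s and NullH P E s are Dec.
avoid with S0 = S, B t = univ, A n = NullH P E (enumN n), R = S: hypothesis H: given R1 <= S, t, n, take the
decision R' <= R1, D of NullH P E (enumN n) at t; μ D = 0 by null_of_inOn; so almost all y are in Dᶜ and all
x in br R' y t avoid the set. We get S3 <= S such that for almost all y, all x in br S3 y t0 and all n: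
(x,y) not in NullH P E (enumN n), so not in NullH P E s for all s (exists_enumN).
For almost all y and x in br S3 y t0: (x,y) in Sous P iff (x,y) in Hull P E []:
(<=) (x,y) in Hull P E s implies in Hull P E (k :: s) for some k; choose recursively z with
(x,y) in Hull P E (pre z n) for all n (define the nodes N 0 = [], N (n+1) = k(N n) :: N n and z n = k (N n)),
so (x,y) in P (pre z n).
(=>) z gives (x,y) in P [] ; if (x,y) is not in EvOut E [] there is m >= |t0| with enumN m = [] and
y in E (pre x m); x in br S y (pre x m) (br_node, br_mono), so by (a) (x,y) is not in SousAt P [] = Sous P.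
Now decide Hull P E [] at t0 below S3: F, D. Then InOn μ (Sous P) F t0 D and InOn μ (Sous P)ᶜ F t0 Dᶜ.
-/

set_option autoImplicit false

open MeasureTheory Set

namespace Pool.Agent.Work.MP_994356_lc

private theorem pre_meas (m : ℕ) : ∀ u : List ℕ, MeasurableSet {x : ℕ → ℕ | pre x m = u} := by
  induction m with
  | zero =>
    intro u
    exact MeasurableSet.const ([] = u)
  | succ m ih =>
    intro u
    cases u with
    | nil =>
      have h1 : {x : ℕ → ℕ | pre x (m + 1) = []} = ∅ := by
        ext x
        simp [pre]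
      rw [h1]
      exact MeasurableSet.empty
    | cons k v =>
      have h1 : {x : ℕ → ℕ | pre x (m + 1) = k :: v} =
          {x : ℕ → ℕ | x m = k} ∩ {x | pre x m = v} := by
        ext x
        simp [pre]
      rw [h1]
      exact ((measurable_pi_apply m) (measurableSet_singleton k)).inter (ih v)

private theorem evOut_meas {Y : Type*} [MeasurableSpace Y] (E : List ℕ → Set Y)
    (hE : ∀ t, MeasurableSet (E t)) (s : List ℕ) : MeasurableSet (EvOut E s) := by
  have h1 : EvOut E s = ⋃ M : ℕ, ⋂ m : ℕ,
      {p : (ℕ → ℕ) × Y | M ≤ m → enumN m = s → p.2 ∉ E (pre p.1 m)} := by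
    ext p
    simp [EvOut]
  rw [h1]
  refine MeasurableSet.iUnion fun M => MeasurableSet.iInter fun m => ?_
  by_cases hc : M ≤ m ∧ enumN m = s
  · have h2 : {p : (ℕ → ℕ) × Y | M ≤ m → enumN m = s → p.2 ∉ E (pre p.1 m)} =
        (⋃ u : List ℕ, (Prod.fst ⁻¹' {x : ℕ → ℕ | pre x m = u} ∩ Prod.snd ⁻¹' E u))ᶜ := by
      ext p
      constructor
      · intro h3 h4
        rw [mem_iUnion] at h4
        obtain ⟨u, h5, h6⟩ := h4
        have h7 : pre p.1 m = u := h5
        refine h3 hc.1 hc.2 ?_
        rw [h7]
        exact h6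
      · intro h3 _ _ h4
        apply h3
        rw [mem_iUnion]
        exact ⟨pre p.1 m, rfl, h4⟩
    rw [h2]
    exact (MeasurableSet.iUnion fun u =>
      (measurable_fst (pre_meas m u)).inter (measurable_snd (hE u))).compl
  · have h2 : {p : (ℕ → ℕ) × Y | M ≤ m → enumN m = s → p.2 ∉ E (pre p.1 m)} = univ := by
      ext p
      constructor
      · intro _
        trivial
      · intro _ h3 h4
        exact absurd ⟨h3, h4⟩ hc
    rw [h2]
    exact MeasurableSet.univ

private theorem chain_exists {X : Type*} (H P : List ℕ → Set X) (p : X) (hHP : ∀ s, H s ⊆ P s)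
    (hstep : ∀ s, p ∈ H s → ∃ k, p ∈ H (k :: s)) (h0 : p ∈ H []) : p ∈ Sous P := by
  classical
  have hk : ∀ s, ∃ k, p ∈ H s → p ∈ H (k :: s) := by
    intro s
    by_cases hs : p ∈ H s
    · obtain ⟨k, hk⟩ := hstep s hs
      exact ⟨k, fun _ => hk⟩
    · exact ⟨0, fun h => absurd h hs⟩
  choose kf hkf using hk
  let N : ℕ → List ℕ := fun n => Nat.rec [] (fun _ u => kf u :: u) n
  have hNs : ∀ n, N (n + 1) = kf (N n) :: N n := fun n => rfl
  have hN : ∀ n, p ∈ H (N n) := by
    intro n
    induction n with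
    | zero => exact h0
    | succ n ih =>
      rw [hNs]
      exact hkf _ ih
  refine ⟨fun n => kf (N n), fun n => ?_⟩
  have hpre : pre (fun n => kf (N n)) n = N n := by
    induction n with
    | zero => rfl
    | succ n ih => rw [pre, ih, hNs]
  rw [hpre]
  exact hHP _ (hN n)

theorem dec_sous {Y : Type*} [MeasurableSpace Y] (μ : Measure Y) [IsFiniteMeasure μ]
    (P : List ℕ → Set ((ℕ → ℕ) × Y)) (h : ∀ s, Dec μ (P s)) : Dec μ (Sous P) := by
  intro t0 R
  obtain ⟨S, E, hSR, hE, ha, hb⟩ := sous_fuse μ P R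
  have hHull : ∀ s, Dec μ (Hull P E s) := fun s =>
    dec_inter μ (dec_of_measurable μ (evOut_meas E hE s)) (h s)
  have hNull : ∀ s, Dec μ (NullH P E s) := fun s =>
    dec_diff_iUnion μ (hHull s) (fun k => hHull (k :: s))
  obtain ⟨S3, hS3, hav⟩ := avoid μ S (fun _ => univ) (fun n => NullH P E (enumN n))
    (by
      intro R1 hR1 t n
      obtain ⟨F, hF, D, hD, h1, h2⟩ := hNull (enumN n) t R1
      have h3 : μ D = 0 :=
        null_of_inOn μ P S E ha hb (enumN n) t F (hF.trans hR1) D hD h1
      refine ⟨F, hF, ?_⟩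
      have h4 : ∀ᵐ y ∂μ, y ∉ D := measure_eq_zero_iff_ae_notMem.1 h3
      filter_upwards [h4, h2] with y hy1 hy2 _ x hx
      exact hy2 hy1 x hx) S (Fam.Sub.refl S)
  obtain ⟨F, hF, D, hD, h1, h2⟩ := hHull [] t0 S3
  refine ⟨F, (hF.trans hS3).trans hSR, D, hD, ?_, ?_⟩
  · unfold InOn at h1 ⊢
    filter_upwards [hav, h1] with y hy1 hy2 hyD x hx
    have hx3 : x ∈ br S3 y t0 := br_mono hF y t0 hx
    have hn : ∀ s, (x, y) ∉ NullH P E s := by
      intro s
      obtain ⟨m, -, hm⟩ := exists_enumN s 0
      have h5 := hy1 t0 x hx3 (fun _ _ => mem_univ _) m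
      rw [hm] at h5
      exact h5
    refine chain_exists (Hull P E) P (x, y) (fun s => inter_subset_right) ?_ (hy2 hyD x hx)
    intro s hs
    by_contra hcon
    push Not at hcon
    refine hn s ⟨hs, ?_⟩
    rw [mem_iUnion]
    rintro ⟨k, hk⟩
    exact hcon k hk
  · unfold InOn at h2 ⊢
    filter_upwards [ha, h2] with y hy1 hy2 hyD x hx hxS
    have hxs : x ∈ br S y t0 := br_mono (hF.trans hS3) y t0 hx
    have h3 := hy2 hyD x hx
    apply h3
    obtain ⟨z, hz⟩ := hxS
    refine ⟨?_, hz 0⟩
    by_contra hcon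
    have h4 : ∃ m, t0.length ≤ m ∧ enumN m = [] ∧ y ∈ E (pre x m) := by
      by_contra h5
      apply hcon
      refine ⟨t0.length, fun m hm he hy => h5 ⟨m, hm, he, hy⟩⟩
    obtain ⟨m, hm, he, hyE⟩ := h4
    have h5 := hy1 (pre x m) hyE x (br_node hxs hm)
    rw [pre_length, he, sousAt_nil] at h5
    exact h5 ⟨z, hz⟩

end Pool.Agent.Work.MP_994356_lc
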