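import Mathlib
import Pool.Agent.Work.MP_994356_lc.Defs
import Pool.Agent.Work.MP_994356_lc.CS
import Pool.Agent.Work.MP_994356_lc.Sigma
import Pool.Agent.Work.MP_994356_lc.Souslin
import Pool.Agent.Work.MP_994356_lc.Left

/-
MODULE Final (size M). Cites dec_of_measurable, dec_sous, lm_mem, lm_bound (sorry is fine while open).
dec_of_cset: induction on CSet: meas: dec_of_measurable; compl: Dec.compl; souslin: dec_sous for
P' s = P s.reverse, since (pre z n).reverse = List.ofFn (fun i : Fin n => z i) (induction on n;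
List.ofFn_succ_last or List.ext_getElem). With Set.ext / the same set.
gold: decide A at [] below Fam.full Y: F, D. Let U = {y | exists x, (x, y) in A}. For almost all y not in D:
y not in U: if (x0, y) in A, exists_br gives x in br F y [] with x0 n <= x n for all n, so (x, y) in A by
monotonicity, contradiction. For almost all y in D: (lm F y, y) in A (lm_mem). lm_bound gives g; for almost
all y in U: y in D, and if lm F y n <= g n for all n then (g, y) in A by monotonicity. So U \ A_g is almost
contained in {y | exists n, g n < lm F y n}, and μ (outer measure) of it is <= eps (measure_mono_ae or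
measure_mono_null).
-/

set_option autoImplicit false

open MeasureTheory Set

namespace Pool.Agent.Work.MP_994356_lc

private theorem pre_reverse (z : ℕ → ℕ) (n : ℕ) :
    (pre z n).reverse = List.ofFn (fun i : Fin n => z i) := by
  induction n with
  | zero => rfl
  | succ n ih =>
    rw [List.ofFn_succ_last, pre, List.reverse_cons, ih]
    rfl

theorem dec_of_cset {Y : Type*} [MeasurableSpace Y] (μ : Measure Y) [IsFiniteMeasure μ]
    {A : Set ((ℕ → ℕ) × Y)} (hA : CSet A) : Dec μ A := by
  induction hA with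
  | meas s hs => exact dec_of_measurable μ hs
  | compl s _ ih => exact ih.compl
  | souslin P _ ih =>
    have h := dec_sous μ (fun s => P s.reverse) (fun s => ih _)
    have h2 : Sous (fun s => P s.reverse) =
        {p : (ℕ → ℕ) × Y | ∃ z : ℕ → ℕ, ∀ n, p ∈ P (List.ofFn fun i : Fin n => z i)} := by
      ext p
      simp only [Sous, mem_setOf_eq, pre_reverse]
    rw [h2] at h
    exact h

theorem gold {Y : Type*} [MeasurableSpace Y] (μ : Measure Y) [IsFiniteMeasure μ]
    {A : Set ((ℕ → ℕ) × Y)} (hA : CSet A)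
    (hm : ∀ x x' : ℕ → ℕ, x ≤ x' → ∀ y, (x, y) ∈ A → (x', y) ∈ A) {ε : ENNReal} (hε : 0 < ε) :
    ∃ g : ℕ → ℕ, μ {y | (∃ x, (x, y) ∈ A) ∧ (g, y) ∉ A} ≤ ε := by
  obtain ⟨F, -, D, -, h1, h2⟩ := dec_of_cset μ hA [] (Fam.full Y)
  obtain ⟨g, hg⟩ := lm_bound μ F hε
  refine ⟨g, le_trans (measure_mono_ae ?_) hg⟩
  filter_upwards [h1, h2] with y hy1 hy2
  rintro ⟨⟨x0, hx0⟩, hgA⟩
  by_cases hyD : y ∈ D
  · have hlm := hy1 hyD (lm F y) (lm_mem F y)
    by_contra hcon
    apply hgA
    refine hm (lm F y) g (fun n => ?_) y hlm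
    by_contra hn
    exact hcon ⟨n, not_le.1 hn⟩
  · exfalso
    obtain ⟨x, hx, hxx⟩ := exists_br F y [] x0
    exact hy2 hyD x hx (hm x0 x (fun n => hxx n (Nat.zero_le _)) y hx0)

end Pool.Agent.Work.MP_994356_lc
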