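import Mathlib
import Pool.Agent.Work.MP_994356_lc.Defs
import Pool.Agent.Work.MP_994356_lc.CS
import Pool.Agent.Work.MP_994356_lc.Left
import Pool.Agent.Work.MP_994356_lc.Final

/-!
# Measurable uniformization of monotone C-sets
-/

set_option autoImplicit false

open MeasureTheory Set

namespace Pool.Agent.Work.MP_994356_lc

theorem unif {Y : Type*} [MeasurableSpace Y] (μ : Measure Y) [IsFiniteMeasure μ]
    {A : Set ((ℕ → ℕ) × Y)} (hA : CSet A)
    (hm : ∀ x x' : ℕ → ℕ, x ≤ x' → ∀ y, (x, y) ∈ A → (x', y) ∈ A) :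
    NullMeasurableSet {y | ∃ x, (x, y) ∈ A} μ ∧
      ∃ φ : Y → (ℕ → ℕ), Measurable φ ∧ ∀ᵐ y ∂μ, (∃ x, (x, y) ∈ A) → (φ y, y) ∈ A := by
  obtain ⟨F, -, D, hD, h1, h2⟩ := dec_of_cset μ hA [] (Fam.full Y)
  have hkey : ∀ᵐ y ∂μ, ((∃ x, (x, y) ∈ A) ↔ y ∈ D) ∧ (y ∈ D → (lm F y, y) ∈ A) := by
    filter_upwards [h1, h2] with y hy1 hy2
    refine ⟨⟨?_, fun hy => ?_⟩, fun hy => hy1 hy _ (lm_mem F y)⟩
    · rintro ⟨x₀, hx₀⟩
      by_contra hy
      obtain ⟨x, hx, hle⟩ := exists_br F y [] x₀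
      exact hy2 hy x hx (hm x₀ x (fun n => hle n (Nat.zero_le _)) y hx₀)
    · exact ⟨lm F y, hy1 hy _ (lm_mem F y)⟩
  refine ⟨?_, lm F, ?_, ?_⟩
  · refine hD.nullMeasurableSet.congr ?_
    filter_upwards [hkey] with y hy
    exact propext hy.1.symm
  · refine measurable_pi_lambda _ fun n => ?_
    refine measurable_to_countable' fun k => ?_
    exact lm_meas F n k
  · filter_upwards [hkey] with y hy hx
    exact hy.2 (hy.1.1 hx)

end Pool.Agent.Work.MP_994356_lc
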